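import Pool.Agent.Run7.h284.HJ.Signs
import Pool.Agent.Run7.h284.VX.L2

/-!
# Families approximated by functions of small degree
-/

set_option autoImplicit false

namespace Pool.Agent.H284.HJ

open Finset Function H568R2 Pool.Agent.H284.PS Pool.Agent.H284.VX

/-- all differences of order `D + 1` in the directions of `U` vanish -/
def Deg {E : Type} [DecidableEq E] (U : Finset E) : ℕ → (Finset E → ℝ) → Prop
  | 0, f => ∀ e ∈ U, ∀ A, diff e f A = 0
  | D + 1, f => ∀ e ∈ U, Deg U D (diff e f)

section base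

variable {I : Type} [Fintype I] [DecidableEq I]

lemma const_of (P : (I → Bool) → ℝ) (h : ∀ i x, Dv i P x = 0) (x y : I → Bool) : P x = P y := by
  have key : ∀ (M : Finset I) (x y : I → Bool), (∀ i, i ∉ M → x i = y i) → P x = P y := by
    intro M
    induction M using Finset.induction_on with
    | empty =>
      intro x y hxy
      congr 1
      funext i
      exact hxy i (Finset.notMem_empty _)
    | insert a M _ ih =>
      intro x y hxy
      have h1 : ∀ b, P (Function.update x a b) = P x := by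
        have h2 : P (Function.update x a true) = P (Function.update x a false) := by
          have := h a x
          unfold Dv at this
          linarith
        intro b
        have h3 : Function.update x a (x a) = x := Function.update_eq_self a x
        rcases hb : x a with _ | _
        · rw [hb] at h3
          cases b
          · rw [h3]
          · rw [h2, h3]
        · rw [hb] at h3
          cases b
          · rw [← h2, h3]
          · rw [h3]
      rw [← h1 (y a)]
      apply ih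
      intro i hi
      by_cases hia : i = a
      · subst hia
        simp
      · rw [Function.update_of_ne hia]
        apply hxy
        rw [Finset.mem_insert]
        push Not
        exact ⟨hia, hi⟩
  exact key univ x y fun i hi => absurd (mem_univ i) hi

omit [Fintype I] in
lemma dv_sq (P : (I → Bool) → ℝ) (i : I) (x : I → Bool) :
    Dv i P x ^ 2 = (P x - P (PS.flip x i)) ^ 2 := by
  rcases hx : x i with _ | _
  · have h1 : Function.update x i false = x := by
      rw [← hx]; exact Function.update_eq_self i x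
    have h2 : PS.flip x i = Function.update x i true := by
      unfold PS.flip; rw [hx]; rfl
    unfold Dv
    rw [h1, h2]
    ring
  · have h1 : Function.update x i true = x := by
      rw [← hx]; exact Function.update_eq_self i x
    have h2 : PS.flip x i = Function.update x i false := by
      unfold PS.flip; rw [hx]; rfl
    unfold Dv
    rw [h1, h2]

end base

section fib

variable {X : Type} [Fintype X] [DecidableEq X] {n : ℕ}

omit [Fintype X] in
lemma dv_fib (ψ : Fin n ↪ X) (A : Finset X) (h : Finset X → ℝ) (c : ℝ) (i : Fin n) : ∃ c' : ℝ,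
    Dv i (fun z : Fin n → Bool => c * h (symmDiff A (zset ψ z))) =
      fun z => c' * diff (ψ i) h (symmDiff A (zset ψ z)) := by
  by_cases hi : ψ i ∈ A
  · refine ⟨-c, ?_⟩
    funext z
    show c * h (symmDiff A (zset ψ (Function.update z i true))) -
      c * h (symmDiff A (zset ψ (Function.update z i false))) =
      -c * (h (insert (ψ i) (symmDiff A (zset ψ z))) - h ((symmDiff A (zset ψ z)).erase (ψ i)))
    rw [symm_update, symm_update]
    simp only [hi, true_iff, if_true, Bool.false_eq_true, if_false]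
    ring
  · refine ⟨c, ?_⟩
    funext z
    show c * h (symmDiff A (zset ψ (Function.update z i true))) -
      c * h (symmDiff A (zset ψ (Function.update z i false))) =
      c * (h (insert (ψ i) (symmDiff A (zset ψ z))) - h ((symmDiff A (zset ψ z)).erase (ψ i)))
    rw [symm_update, symm_update]
    simp only [hi, false_iff, not_true_eq_false, if_false, Bool.false_eq_true, if_true]
    ring

omit [Fintype X] in
lemma deg_fib (ψ : Fin n ↪ X) (A : Finset X) (U : Finset X) (hψ : ∀ i, ψ i ∈ U) :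
    ∀ (D : ℕ) (h : Finset X → ℝ) (c : ℝ), Deg U D h →
      DegLE D (fun z : Fin n → Bool => c * h (symmDiff A (zset ψ z))) := by
  intro D
  induction D with
  | zero =>
    intro h c hh x y
    apply const_of (fun z : Fin n → Bool => c * h (symmDiff A (zset ψ z)))
    intro i x
    obtain ⟨c', hc'⟩ := dv_fib ψ A h c i
    rw [hc']
    show c' * diff (ψ i) h (symmDiff A (zset ψ x)) = 0
    rw [hh (ψ i) (hψ i), mul_zero]
  | succ D ih =>
    intro h c hh i
    obtain ⟨c', hc'⟩ := dv_fib ψ A h c i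
    rw [hc']
    exact ih (diff (ψ i) h) c' (hh (ψ i) (hψ i))

/-- `p` approximates the indicator function of `F` -/
def Approx (p : Finset X → ℝ) (F : Finset (Finset X)) : Prop :=
  (∀ A ∈ F, |p A - 1| ≤ 1 / 3) ∧ ∀ A, A ∉ F → |p A| ≤ 1 / 3

/-- the amplified approximation -/
noncomputable def amp (j : ℕ) (p : Finset X → ℝ) (A : Finset X) : ℝ :=
  BP j ((3 / 5) * p A + 1 / 5)

omit [Fintype X] in
lemma amp_in {j : ℕ} {p : Finset X → ℝ} {F : Finset (Finset X)} (h : Approx p F) {A : Finset X}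
    (hA : A ∈ F) : 1 - (24 / 25) ^ j ≤ amp j p A ∧ amp j p A ≤ 1 := by
  have h1 := abs_le.1 (h.1 A hA)
  apply BP_big <;> linarith [h1.1, h1.2]

omit [Fintype X] in
lemma amp_out {j : ℕ} {p : Finset X → ℝ} {F : Finset (Finset X)} (h : Approx p F) {A : Finset X}
    (hA : A ∉ F) : 0 ≤ amp j p A ∧ amp j p A ≤ (24 / 25) ^ j := by
  have h1 := abs_le.1 (h.2 A hA)
  constructor
  · apply BP_nonneg <;> linarith [h1.1, h1.2]
  · apply BP_small <;> linarith [h1.1, h1.2]

/-- **The boundary of a family approximated by a function of small degree.** -/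
theorem fbd_approx {F : Finset (Finset X)} {p : Finset X → ℝ} {U : Finset X} {D : ℕ}
    (hp : Deg U D p) (hF : Approx p F) (ψ : Fin n ↪ X) (hψ : ∀ i, ψ i ∈ U) {j : ℕ}
    (hj : (24 / 25 : ℝ) ^ j ≤ 1 / 4) :
    (fbd F ψ : ℝ) ≤ 16 * j * D * (F.card + ((24 / 25) ^ j) ^ 2 * 2 ^ Fintype.card X) := by
  classical
  obtain ⟨g, hg⟩ : ∃ g : Finset X → ℝ, g = amp j p := ⟨_, rfl⟩
  obtain ⟨ε, hε⟩ : ∃ ε : ℝ, ε = (24 / 25 : ℝ) ^ j := ⟨_, rfl⟩
  have hε0 : 0 ≤ ε := by rw [hε]; positivity
  have hin : ∀ A ∈ F, 1 - ε ≤ g A ∧ g A ≤ 1 := by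
    intro A hA
    rw [hg, hε]
    exact amp_in hF hA
  have hout : ∀ A, A ∉ F → 0 ≤ g A ∧ g A ≤ ε := by
    intro A hA
    rw [hg, hε]
    exact amp_out hF hA
  rw [← hε] at hj ⊢
  -- the spectral inequality in the fibres
  have h1 : ∀ A : Finset X, ∑ i : Fin n, Ex uw (fun z : Fin n → Bool =>
      (g (symmDiff A (zset ψ z)) - g (symmDiff (symmDiff A (zset ψ z)) {ψ i})) ^ 2) ≤
      4 * (2 * j * D : ℕ) * Ex uw (fun z : Fin n → Bool => g (symmDiff A (zset ψ z)) ^ 2) := by
    intro A
    have e1 : DegLE (2 * j * D) (fun z : Fin n → Bool => g (symmDiff A (zset ψ z))) := by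
      rw [hg]
      show DegLE (2 * j * D) (fun z : Fin n → Bool =>
        BP j ((3 / 5) * p (symmDiff A (zset ψ z)) + 1 / 5))
      apply DegLE.BP (P := fun z : Fin n → Bool => (3 / 5) * p (symmDiff A (zset ψ z)) + 1 / 5)
      exact DegLE.add D (deg_fib ψ A U hψ D p (3 / 5) hp) (DegLE.const (1 / 5) D)
    have e2 := l2 univ (2 * j * D) _ e1 (fun x y hxy => by
      have : x = y := funext fun i => hxy i (mem_univ i)
      rw [this])
    refine le_trans (le_of_eq ?_) e2
    apply Finset.sum_congr rfl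
    intro i _
    congr 1
    funext z
    rw [dv_sq]
    show _ = (g (symmDiff A (zset ψ z)) - g (symmDiff A (zset ψ (PS.flip z i)))) ^ 2
    rw [zset_flip, ← symmDiff_assoc]
  have h2 := Finset.sum_le_sum fun A (_ : A ∈ (univ : Finset (Finset X))) => h1 A
  rw [← Finset.mul_sum] at h2
  -- the sum of the squares
  have h3 : ∑ A : Finset X, Ex uw (fun z : Fin n → Bool => g (symmDiff A (zset ψ z)) ^ 2) =
      ∑ A : Finset X, g A ^ 2 := by
    rw [← Ex_sum]
    have e1 : (fun z : Fin n → Bool => ∑ A : Finset X, g (symmDiff A (zset ψ z)) ^ 2) =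
        fun _ => ∑ A : Finset X, g A ^ 2 := by
      funext z
      exact sum_symm (zset ψ z) (fun A => g A ^ 2)
    rw [e1, Ex_const uw_sum]
  have h4 : ∑ A : Finset X, g A ^ 2 ≤ F.card + ε ^ 2 * 2 ^ Fintype.card X := by
    have e1 : ∀ A : Finset X, g A ^ 2 ≤ (if A ∈ F then 1 else 0) + ε ^ 2 := by
      intro A
      by_cases hA : A ∈ F
      · rw [if_pos hA]
        obtain ⟨f1, f2⟩ := hin A hA
        have f3 : 0 ≤ g A := by linarith
        nlinarith [sq_nonneg ε]
      · rw [if_neg hA, zero_add]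
        obtain ⟨f1, f2⟩ := hout A hA
        exact pow_le_pow_left₀ f1 f2 2
    refine (Finset.sum_le_sum fun A _ => e1 A).trans (le_of_eq ?_)
    rw [Finset.sum_add_distrib, Finset.sum_boole, Finset.sum_const, Finset.card_univ,
      Fintype.card_finset, nsmul_eq_mul, Finset.filter_mem_eq_inter, Finset.univ_inter]
    push_cast
    ring
  -- the boundary
  have h5 : ∑ A : Finset X, ∑ i : Fin n, Ex uw (fun z : Fin n → Bool =>
      (g (symmDiff A (zset ψ z)) - g (symmDiff (symmDiff A (zset ψ z)) {ψ i})) ^ 2) =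
      ∑ i : Fin n, ∑ A : Finset X, (g A - g (symmDiff A {ψ i})) ^ 2 := by
    rw [Finset.sum_comm]
    apply Finset.sum_congr rfl
    intro i _
    rw [← Ex_sum]
    have e1 : (fun z : Fin n → Bool => ∑ A : Finset X,
        (g (symmDiff A (zset ψ z)) - g (symmDiff (symmDiff A (zset ψ z)) {ψ i})) ^ 2) =
        fun _ => ∑ A : Finset X, (g A - g (symmDiff A {ψ i})) ^ 2 := by
      funext z
      exact sum_symm (zset ψ z) (fun A => (g A - g (symmDiff A {ψ i})) ^ 2)
    rw [e1, Ex_const uw_sum]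
  have h6 : (1 / 4 : ℝ) * bdry F ψ ≤
      ∑ i : Fin n, ∑ A : Finset X, (g A - g (symmDiff A {ψ i})) ^ 2 := by
    have e1 : (bdry F ψ : ℝ) = ∑ i : Fin n, ∑ A : Finset X,
        if ¬ (symmDiff A {ψ i} ∈ F ↔ A ∈ F) then (1 : ℝ) else 0 := by
      unfold bdry gg
      simp only [Finset.card_filter]
      rw [Finset.sum_comm]
      push_cast
      rfl
    rw [e1, Finset.mul_sum]
    apply Finset.sum_le_sum
    intro i _
    rw [Finset.mul_sum]
    apply Finset.sum_le_sum
    intro A _
    by_cases a1 : A ∈ F <;> by_cases a2 : symmDiff A {ψ i} ∈ F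
    · simp only [a1, a2, not_true_eq_false, if_false, mul_zero]
      positivity
    · obtain ⟨f1, f2⟩ := hin A a1
      obtain ⟨f3, f4⟩ := hout _ a2
      simp only [a1, a2, false_iff, not_true_eq_false, not_false_eq_true, if_true, mul_one]
      nlinarith
    · obtain ⟨f1, f2⟩ := hout A a1
      obtain ⟨f3, f4⟩ := hin _ a2
      simp only [a1, a2, true_iff, not_false_eq_true, if_true, mul_one]
      nlinarith
    · simp only [a1, a2, not_true_eq_false, if_false, mul_zero]
      positivity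
  rw [h3, h5] at h2
  have h7 : (bdry F ψ : ℝ) = 2 * fbd F ψ := by
    rw [bdry_two]
    push_cast
    rfl
  rw [h7] at h6
  have h8 : (4 : ℝ) * (2 * j * D : ℕ) * ∑ A : Finset X, g A ^ 2 ≤
      4 * (2 * j * D : ℕ) * (F.card + ε ^ 2 * 2 ^ Fintype.card X) :=
    mul_le_mul_of_nonneg_left h4 (by positivity)
  push_cast at h8 h2
  have h9 : (1 / 4 : ℝ) * (2 * fbd F ψ) ≤
      4 * (2 * j * D) * (F.card + ε ^ 2 * 2 ^ Fintype.card X) := h6.trans (h2.trans h8)
  calc (fbd F ψ : ℝ) = 2 * (1 / 4 * (2 * fbd F ψ)) := by ring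
    _ ≤ 2 * (4 * (2 * j * D) * (F.card + ε ^ 2 * 2 ^ Fintype.card X)) := by linarith
    _ = _ := by ring

end fib

section main

variable {h N : ℕ}

lemma exp_bound (j : ℕ) : ((24 / 25 : ℝ) ^ j) ^ 2 ≤ Real.exp (-(2 * j / 25 : ℝ)) := by
  have h1 : (24 / 25 : ℝ) ≤ Real.exp (-(1 / 25 : ℝ)) := by
    have := Real.add_one_le_exp (-(1 / 25 : ℝ))
    linarith
  calc ((24 / 25 : ℝ) ^ j) ^ 2 = (24 / 25 : ℝ) ^ (2 * j) := by rw [← pow_mul, mul_comm]
    _ ≤ Real.exp (-(1 / 25 : ℝ)) ^ (2 * j) := pow_le_pow_left₀ (by norm_num) h1 _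
    _ = Real.exp (-(2 * j / 25 : ℝ)) := by
        rw [← Real.exp_nat_mul]
        congr 1
        push_cast
        ring

lemma quarter {j : ℕ} (hj : 40 ≤ j) : (24 / 25 : ℝ) ^ j ≤ 1 / 4 := by
  have h1 : (24 / 25 : ℝ) ^ j ≤ (24 / 25) ^ 40 :=
    pow_le_pow_of_le_one (by norm_num) (by norm_num) hj
  have h2 : (24 / 25 : ℝ) ^ 40 ≤ 1 / 4 := by norm_num
  linarith

/-- **Approximated families which are not good.** -/
theorem approx_small (hh : 1 ≤ h) (hN : 1 ≤ N) {F : Finset (Finset (Fin h → Fin N))}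
    {p : Finset (Fin h → Fin N) → ℝ} {D : ℕ} (hD : 1 ≤ D)
    (hp : Deg (univ.image fun i : Fin N => fun _ : Fin h => i) D p) (hF : Approx p F)
    (hc : ¬ GoodH F) : (F.card : ℝ) ≤ Real.exp (4 - N / (400 * D)) * 2 ^ (N ^ h) := by
  have hN0 : (0 : ℝ) < N := by exact_mod_cast hN
  have hD0 : (0 : ℝ) < D := by exact_mod_cast hD
  obtain ⟨j, hj⟩ : ∃ j : ℕ, j = ⌊(N : ℝ) / (32 * D)⌋₊ := ⟨_, rfl⟩
  have hj1 : (j : ℝ) ≤ N / (32 * D) := by rw [hj]; exact Nat.floor_le (by positivity)
  have hj2 : (N : ℝ) / (32 * D) < j + 1 := by rw [hj]; exact Nat.lt_floor_add_one _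
  have hNj : (N : ℝ) / (400 * D) ≤ (2 * j + 2) / 25 := by
    have e1 : (N : ℝ) / (400 * D) = N / (32 * D) * (2 / 25) := by
      field_simp
      norm_num
    rw [e1]
    linarith
  by_cases h40 : 40 ≤ j
  · have h1 := fbd_approx hp hF (diag (N := N) hh)
      (fun i => Finset.mem_image_of_mem _ (mem_univ i)) (quarter h40)
    rw [card_pts] at h1
    have h2 : fbd F (diag (N := N) hh) = N * F.card := by
      unfold fbd
      have e1 : ∀ A ∈ F, (univ.filter fun i : Fin N => symmDiff A {diag (N := N) hh i} ∉ F).card =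
          N := by
        intro A hA
        rw [Finset.filter_true_of_mem, Finset.card_univ, Fintype.card_fin]
        intro i _
        exact leave_diag hc hA i
      rw [Finset.sum_congr rfl e1, Finset.sum_const, smul_eq_mul, mul_comm]
    rw [h2] at h1
    push_cast at h1
    obtain ⟨E, hE⟩ : ∃ E : ℝ, E = ((24 / 25 : ℝ) ^ j) ^ 2 * 2 ^ (N ^ h) := ⟨_, rfl⟩
    have hE0 : 0 ≤ E := by rw [hE]; positivity
    rw [← hE] at h1
    have h3 : (16 * j * D : ℝ) ≤ N / 2 := by
      have e1 : (j : ℝ) * (32 * D) ≤ N := by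
        rwa [le_div_iff₀ (by positivity)] at hj1
      linarith
    have h4 : (N : ℝ) * F.card ≤ N / 2 * (F.card + E) :=
      h1.trans (mul_le_mul_of_nonneg_right h3 (by positivity))
    have h5 : (N : ℝ) * F.card ≤ N * E := by
      have : (N : ℝ) / 2 * (F.card + E) = (N * F.card + N * E) / 2 := by ring
      linarith
    have h6 : (F.card : ℝ) ≤ E := le_of_mul_le_mul_left h5 hN0
    refine h6.trans ?_
    rw [hE]
    apply mul_le_mul_of_nonneg_right _ (by positivity)
    refine (exp_bound j).trans (Real.exp_le_exp.2 ?_)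
    linarith
  · have h1 : (F.card : ℝ) ≤ 2 ^ (N ^ h) := by
      have := card_le_univ F
      rw [Fintype.card_finset, card_pts] at this
      exact_mod_cast this
    have h2 : (1 : ℝ) ≤ Real.exp (4 - N / (400 * D)) := by
      apply Real.one_le_exp
      have e1 : (j : ℝ) ≤ 39 := by
        have : j ≤ 39 := by omega
        exact_mod_cast this
      linarith
    have h3 := mul_le_mul_of_nonneg_right h2 (by positivity : (0 : ℝ) ≤ 2 ^ (N ^ h))
    linarith

/-- **The relative form inside approximated families.** -/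
theorem approx_main (h : ℕ) (hh : 1 ≤ h) (θ θ' : ℝ) (hθ0 : 0 ≤ θ) (hθ : θ < θ')
    (hcrit : ∀ δ : ℝ, θ < δ → ∃ m : ℕ, 1 ≤ m ∧ ∀ S : Finset (Finset (Fin h → Fin m)),
      δ * (2 : ℝ) ^ (m ^ h) < S.card → GoodH S) :
    ∃ c : ℝ, 0 < c ∧ ∀ N D : ℕ, 1 ≤ N → 1 ≤ D → ∀ (p : Finset (Fin h → Fin N) → ℝ)
      (F S : Finset (Finset (Fin h → Fin N))), Deg univ D p → Approx p F → ¬ GoodH S →
      ((S ∩ F).card : ℝ) ≤ θ' * F.card + Real.exp (4 - c * N / D) * 2 ^ (N ^ h) := by
  classical
  obtain ⟨ε, hε'⟩ : ∃ ε : ℝ, ε = min ((θ' - θ) / 2) 1 := ⟨_, rfl⟩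
  have hε : 0 < ε := by rw [hε']; exact lt_min (by linarith) one_pos
  have hε1 : ε ≤ 1 := by rw [hε']; exact min_le_right _ _
  have hε2 : ε ≤ (θ' - θ) / 2 := by rw [hε']; exact min_le_left _ _
  obtain ⟨m, hm, hm2⟩ := hcrit ((θ + θ') / 2) (by linarith)
  have hm0 : (0 : ℝ) < m := by exact_mod_cast hm
  refine ⟨ε / (400 * m), by positivity, ?_⟩
  intro N D hN hD p F S hp hF hS
  have hN0 : (0 : ℝ) < N := by exact_mod_cast hN
  have hD0 : (1 : ℝ) ≤ D := by exact_mod_cast hD
  have hD00 : (0 : ℝ) < D := by linarith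
  have hθF : 0 ≤ θ' * F.card := by
    have : 0 ≤ θ' := by linarith
    positivity
  obtain ⟨j, hj⟩ : ∃ j : ℕ, j = ⌊ε * N / (32 * D * m)⌋₊ := ⟨_, rfl⟩
  have hj1 : (j : ℝ) ≤ ε * N / (32 * D * m) := by rw [hj]; exact Nat.floor_le (by positivity)
  have hj2 : ε * N / (32 * D * m) < j + 1 := by rw [hj]; exact Nat.lt_floor_add_one _
  have hNj : ε / (400 * m) * N / D ≤ (2 * j + 2) / 25 := by
    have e1 : ε / (400 * m) * N / D = ε * N / (32 * D * m) * (2 / 25) := by
      field_simp
      norm_num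
    rw [e1]
    linarith
  have htriv : (1 : ℝ) ≤ Real.exp (4 - ε / (400 * m) * N / D) →
      ((S ∩ F).card : ℝ) ≤ θ' * F.card +
        Real.exp (4 - ε / (400 * m) * N / D) * 2 ^ (N ^ h) := by
    intro h2
    have h1 : ((S ∩ F).card : ℝ) ≤ 2 ^ (N ^ h) := by
      have := card_le_univ (S ∩ F)
      rw [Fintype.card_finset, card_pts] at this
      exact_mod_cast this
    have h3 := mul_le_mul_of_nonneg_right h2 (by positivity : (0 : ℝ) ≤ 2 ^ (N ^ h))
    linarith
  rcases le_or_gt m N with hmn | hnm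
  · by_cases h40 : 40 ≤ j
    · have hr' : ∀ B : Finset (Finset (Fin h → Fin m)), ¬ GoodH B →
          B.card ≤ ⌊(θ + θ') / 2 * 2 ^ (m ^ h)⌋₊ := by
        intro B hB
        apply Nat.le_floor
        by_contra hcon
        push Not at hcon
        exact hB (hm2 B hcon)
      have h2 : ((⌊(θ + θ') / 2 * 2 ^ (m ^ h)⌋₊ : ℕ) : ℝ) / 2 ^ (m ^ h) ≤ (θ + θ') / 2 := by
        rw [div_le_iff₀ (by positivity)]
        apply Nat.floor_le
        have : 0 ≤ (θ + θ') / 2 := by linarith
        positivity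
      obtain ⟨n, hn⟩ : ∃ n : ℕ, n = N / m * m ^ h := ⟨_, rfl⟩
      have h1 := rel_gen' hh hm hmn hS hr' hn
        (fun ψ => fbd_approx hp hF ψ (fun i => mem_univ _) (quarter h40))
      rw [card_pts] at h1
      obtain ⟨K, hK⟩ : ∃ K : ℕ, K = N / m := ⟨_, rfl⟩
      have hK1 : 1 ≤ K := by rw [hK]; exact (Nat.one_le_div_iff hm).2 hmn
      have hNK : N ≤ 2 * m * K := by
        have e1 := Nat.div_add_mod N m
        have e2 := Nat.mod_lt N (show 0 < m by omega)
        rw [← hK] at e1
        have e3 : m * 1 ≤ m * K := Nat.mul_le_mul_left _ (by omega)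
        have e4 : 2 * m * K = m * K + m * K := by ring
        omega
      rw [← hK] at h1
      have hK0 : (0 : ℝ) < K := by exact_mod_cast hK1
      have hNK' : (N : ℝ) ≤ 2 * m * K := by exact_mod_cast hNK
      obtain ⟨E, hE⟩ : ∃ E : ℝ, E = ((24 / 25 : ℝ) ^ j) ^ 2 * 2 ^ (N ^ h) := ⟨_, rfl⟩
      have hE0 : 0 ≤ E := by rw [hE]; positivity
      rw [← hE] at h1
      have h3 : (16 * j * D : ℝ) / K ≤ ε := by
        rw [div_le_iff₀ hK0]
        have e1 : (j : ℝ) * (32 * D * m) ≤ ε * N := by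
          rwa [le_div_iff₀ (by positivity)] at hj1
        have e2 : (j : ℝ) * (32 * D * m) ≤ ε * (2 * m * K) :=
          e1.trans (mul_le_mul_of_nonneg_left hNK' hε.le)
        have e3 : (2 * m : ℝ) * (16 * j * D) ≤ (2 * m) * (ε * K) := by
          calc (2 * m : ℝ) * (16 * j * D) = (j : ℝ) * (32 * D * m) := by ring
            _ ≤ ε * (2 * m * K) := e2
            _ = _ := by ring
        exact le_of_mul_le_mul_left e3 (by positivity)
      have h4 : 16 * j * D * (F.card + E) / K ≤ ε * (F.card + E) := by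
        have e1 : 16 * j * D * (F.card + E) / K = (16 * j * D : ℝ) / K * (F.card + E) := by ring
        rw [e1]
        exact mul_le_mul_of_nonneg_right h3 (by positivity)
      have h5 : ((⌊(θ + θ') / 2 * 2 ^ (m ^ h)⌋₊ : ℕ) : ℝ) / 2 ^ (m ^ h) * F.card ≤
          (θ + θ') / 2 * F.card := mul_le_mul_of_nonneg_right h2 (Nat.cast_nonneg _)
      have h6 : E ≤ Real.exp (4 - ε / (400 * m) * N / D) * 2 ^ (N ^ h) := by
        rw [hE]
        apply mul_le_mul_of_nonneg_right _ (by positivity)
        refine (exp_bound j).trans (Real.exp_le_exp.2 ?_)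
        linarith
      have h7 : ε * E ≤ E := mul_le_of_le_one_left hE0 hε1
      have h8 : ε * F.card ≤ (θ' - θ) / 2 * F.card :=
        mul_le_mul_of_nonneg_right hε2 (Nat.cast_nonneg _)
      have h9 : (θ + θ') / 2 * (F.card : ℝ) + (θ' - θ) / 2 * F.card = θ' * F.card := by ring
      have h10 : ε * (F.card + E) = ε * F.card + ε * E := by ring
      linarith
    · apply htriv
      apply Real.one_le_exp
      have e1 : (j : ℝ) ≤ 39 := by
        have : j ≤ 39 := by omega
        exact_mod_cast this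
      linarith
  · apply htriv
    apply Real.one_le_exp
    have e1 : (N : ℝ) ≤ m := by exact_mod_cast hnm.le
    have e2 : ε / (400 * m) * N / D ≤ 1 := by
      rw [div_le_one hD00]
      have e3 : ε / (400 * m) * N ≤ ε / (400 * m) * m := mul_le_mul_of_nonneg_left e1 (by positivity)
      have e4 : ε / (400 * m) * m = ε / 400 := by field_simp
      linarith
    linarith

end main

end Pool.Agent.H284.HJ
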