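import Pool.Agent.Run7.h284.VX.Td

/-!
# Families of sets whose boundary inside small blocks is small: fibres
-/

set_option autoImplicit false

namespace Pool.Agent.H284.HJ

open Finset Function H568R2 DomAC0 Pool.Agent.H284.PS Pool.Agent.H284.VX

section fib

variable {X Y : Type} [Fintype X] [DecidableEq X] [Fintype Y]

/-- the number of points of the block whose change changes the membership -/
noncomputable def gg (F : Finset (Finset X)) (φ : Y ↪ X) (A : Finset X) : ℕ :=
  (univ.filter fun c : Y => ¬ (symmDiff A {φ c} ∈ F ↔ A ∈ F)).card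

/-- the boundary inside the block -/
noncomputable def bdry (F : Finset (Finset X)) (φ : Y ↪ X) : ℕ := ∑ A : Finset X, gg F φ A

omit [Fintype X] [Fintype Y] in
lemma symm_invol (T : Finset X) : Function.Involutive fun A : Finset X => symmDiff A T := by
  intro A
  show symmDiff (symmDiff A T) T = A
  rw [symmDiff_assoc, symmDiff_self, Finset.bot_eq_empty, ← Finset.bot_eq_empty, symmDiff_bot]

omit [Fintype Y] in
lemma sum_symm {M : Type} [AddCommMonoid M] (T : Finset X) (g : Finset X → M) :
    ∑ A : Finset X, g (symmDiff A T) = ∑ A : Finset X, g A :=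
  Equiv.sum_comp (Function.Involutive.toPerm _ (symm_invol T)) g

open Classical in
/-- the sets whose fibre is not constant -/
noncomputable def bad (F : Finset (Finset X)) (φ : Y ↪ X) : Finset (Finset X) :=
  univ.filter fun A => ∃ t : Finset Y, ¬ (symmDiff A (t.map φ) ∈ F ↔ A ∈ F)

lemma exists_step (F : Finset (Finset X)) (φ : Y ↪ X) {A : Finset X} (hA : A ∈ bad F φ) :
    ∃ t : Finset Y, 1 ≤ gg F φ (symmDiff A (t.map φ)) := by
  classical
  by_contra hcon
  push Not at hcon
  have h0 : ∀ (t : Finset Y) (c : Y),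
      (symmDiff (symmDiff A (t.map φ)) {φ c} ∈ F ↔ symmDiff A (t.map φ) ∈ F) := by
    intro t c
    by_contra h
    have h1 := hcon t
    have h2 : gg F φ (symmDiff A (t.map φ)) = 0 := by omega
    unfold gg at h2
    rw [Finset.card_eq_zero] at h2
    have h3 : c ∈ univ.filter fun c : Y =>
        ¬ (symmDiff (symmDiff A (t.map φ)) {φ c} ∈ F ↔ symmDiff A (t.map φ) ∈ F) :=
      Finset.mem_filter.2 ⟨mem_univ _, h⟩
    rw [h2] at h3
    exact absurd h3 (Finset.notMem_empty _)
  obtain ⟨t, ht⟩ := (Finset.mem_filter.1 hA).2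
  apply ht
  clear ht
  induction t using Finset.induction_on with
  | empty =>
    rw [Finset.map_empty, ← Finset.bot_eq_empty, symmDiff_bot]
  | insert c t hc ih =>
    have h1 : (insert c t).map φ = symmDiff (t.map φ) {φ c} := by
      rw [Finset.map_insert]
      ext x
      simp only [Finset.mem_insert, Finset.mem_symmDiff, Finset.mem_singleton]
      constructor
      · rintro (h | h)
        · right
          refine ⟨h, fun h2 => ?_⟩
          rw [h] at h2
          exact hc ((Finset.mem_map' φ).1 h2)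
        · left
          refine ⟨h, fun h2 => ?_⟩
          rw [h2] at h
          exact hc ((Finset.mem_map' φ).1 h)
      · rintro (h | h)
        · exact Or.inr h.1
        · exact Or.inl h.1
    rw [h1, ← symmDiff_assoc, h0]
    exact ih

lemma bad_card (F : Finset (Finset X)) (φ : Y ↪ X) :
    (bad F φ).card ≤ 2 ^ Fintype.card Y * bdry F φ := by
  classical
  have h1 : (bad F φ).card ≤ ∑ A : Finset X, ∑ t : Finset Y, gg F φ (symmDiff A (t.map φ)) := by
    rw [Finset.card_eq_sum_ones, ← Finset.sum_filter_add_sum_filter_not univ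
      (fun A : Finset X => A ∈ bad F φ)]
    refine le_trans ?_ (Nat.le_add_right _ _)
    have e1 : (univ.filter fun A : Finset X => A ∈ bad F φ) = bad F φ := by
      ext A
      simp
    rw [e1]
    apply Finset.sum_le_sum
    intro A hA
    obtain ⟨t, ht⟩ := exists_step F φ hA
    exact ht.trans (Finset.single_le_sum
      (f := fun t : Finset Y => gg F φ (symmDiff A (t.map φ))) (fun _ _ => Nat.zero_le _)
      (mem_univ t))
  rw [Finset.sum_comm] at h1
  have h2 : ∀ t : Finset Y, ∑ A : Finset X, gg F φ (symmDiff A (t.map φ)) = bdry F φ :=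
    fun t => sum_symm (t.map φ) (gg F φ)
  simp only [h2] at h1
  rw [Finset.sum_const, Finset.card_univ, Fintype.card_finset, smul_eq_mul] at h1
  exact h1

lemma fib (F S : Finset (Finset X)) (φ : Y ↪ X) (r : ℕ)
    (hr : ∀ A : Finset X, (univ.filter fun t : Finset Y => symmDiff A (t.map φ) ∈ S).card ≤ r) :
    2 ^ Fintype.card Y * (S ∩ F).card ≤ r * F.card + 2 ^ Fintype.card Y * (bad F φ).card := by
  classical
  have h1 : 2 ^ Fintype.card Y * (S ∩ F).card =
      ∑ A : Finset X, (univ.filter fun t : Finset Y => symmDiff A (t.map φ) ∈ S ∩ F).card := by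
    have e1 : ∀ A : Finset X, (univ.filter fun t : Finset Y => symmDiff A (t.map φ) ∈ S ∩ F).card =
        ∑ t : Finset Y, if symmDiff A (t.map φ) ∈ S ∩ F then 1 else 0 :=
      fun A => Finset.card_filter _ _
    simp only [e1]
    rw [Finset.sum_comm]
    have e2 : ∀ t : Finset Y, (∑ A : Finset X, if symmDiff A (t.map φ) ∈ S ∩ F then 1 else 0) =
        (S ∩ F).card := by
      intro t
      rw [sum_symm (t.map φ) (fun A => if A ∈ S ∩ F then 1 else 0), Finset.sum_boole]
      rw [Finset.filter_mem_eq_inter, Finset.univ_inter]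
      rfl
    simp only [e2]
    rw [Finset.sum_const, Finset.card_univ, Fintype.card_finset, smul_eq_mul]
  rw [h1]
  have h2 : ∀ A : Finset X,
      (univ.filter fun t : Finset Y => symmDiff A (t.map φ) ∈ S ∩ F).card ≤
        r * (if A ∈ F then 1 else 0) + 2 ^ Fintype.card Y * (if A ∈ bad F φ then 1 else 0) := by
    intro A
    by_cases hb : A ∈ bad F φ
    · rw [if_pos hb, mul_one]
      refine le_trans ?_ (Nat.le_add_left _ _)
      refine (Finset.card_le_univ _).trans (le_of_eq ?_)
      rw [Fintype.card_finset]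
    · rw [if_neg hb, mul_zero, add_zero]
      have hb' : ∀ t : Finset Y, (symmDiff A (t.map φ) ∈ F ↔ A ∈ F) := by
        intro t
        by_contra h
        exact hb (Finset.mem_filter.2 ⟨mem_univ _, t, h⟩)
      by_cases hF : A ∈ F
      · rw [if_pos hF, mul_one]
        refine le_trans (Finset.card_le_card ?_) (hr A)
        intro t ht
        rw [Finset.mem_filter] at ht ⊢
        exact ⟨ht.1, (Finset.mem_inter.1 ht.2).1⟩
      · rw [if_neg hF, mul_zero, Nat.le_zero, Finset.card_eq_zero, Finset.filter_eq_empty_iff]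
        intro t _ ht
        exact hF ((hb' t).1 (Finset.mem_inter.1 ht).2)
  refine (Finset.sum_le_sum fun A _ => h2 A).trans (le_of_eq ?_)
  rw [Finset.sum_add_distrib, ← Finset.mul_sum, ← Finset.mul_sum, Finset.sum_boole,
    Finset.sum_boole]
  simp

end fib

section avg

variable {X : Type} [Fintype X] [DecidableEq X] {n : ℕ}

/-- the set described by bits -/
def zset (ψ : Fin n ↪ X) (z : Fin n → Bool) : Finset X :=
  (univ.filter fun i => z i = true).map ψ

omit [Fintype X] in
lemma zset_flip (ψ : Fin n ↪ X) (z : Fin n → Bool) (i : Fin n) :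
    zset ψ (PS.flip z i) = symmDiff (zset ψ z) {ψ i} := by
  ext x
  unfold zset
  rw [Finset.mem_symmDiff, Finset.mem_singleton]
  by_cases hx : ∃ l, ψ l = x
  · obtain ⟨l, rfl⟩ := hx
    rw [Finset.mem_map', Finset.mem_map', Finset.mem_filter, Finset.mem_filter]
    by_cases hl : l = i
    · subst hl
      unfold PS.flip
      rw [Function.update_self]
      cases z l <;> simp
    · have h1 : ψ l ≠ ψ i := fun h => hl (ψ.injective h)
      unfold PS.flip
      rw [Function.update_of_ne hl]
      simp [h1]
  · have h1 : ∀ u : Finset (Fin n), x ∉ u.map ψ := by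
      intro u hu
      obtain ⟨c, -, hc⟩ := Finset.mem_map.1 hu
      exact hx ⟨c, hc⟩
    have h2 : x ≠ ψ i := fun h => hx ⟨i, h.symm⟩
    simp [h1, h2]

/-- the bits of a set -/
def ind (A : Finset X) : X → Bool := fun x => decide (x ∈ A)

omit [Fintype X] in
lemma single (ψ : Fin n ↪ X) (hn : 0 < n) (A : Finset X) :
    Single (fun (z : Fin n → Bool) => ind (symmDiff A (zset ψ z))) := by
  intro x
  by_cases hx : ∃ l, ψ l = x
  · obtain ⟨l, rfl⟩ := hx
    refine ⟨l, fun b => xor (decide (ψ l ∈ A)) b, fun z => ?_⟩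
    show decide (ψ l ∈ symmDiff A (zset ψ z)) = _
    rw [Bool.eq_iff_iff, decide_eq_true_iff, Finset.mem_symmDiff]
    unfold zset
    rw [Finset.mem_map', Finset.mem_filter]
    by_cases h : ψ l ∈ A <;> cases hz : z l <;> simp [h]
  · refine ⟨⟨0, hn⟩, fun _ => decide (x ∈ A), fun z => ?_⟩
    show decide (x ∈ symmDiff A (zset ψ z)) = _
    rw [decide_eq_decide, Finset.mem_symmDiff]
    have h1 : x ∉ zset ψ z := by
      intro hu
      obtain ⟨c, -, hc⟩ := Finset.mem_map.1 hu
      exact hx ⟨c, hc⟩
    simp [h1]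

lemma SS_eq (F : Finset (Finset X)) (ψ : Fin n ↪ X) (A : Finset X) (z : Fin n → Bool) :
    SS (fun z : Fin n → Bool => decide (symmDiff A (zset ψ z) ∈ F)) z =
      gg F ψ (symmDiff A (zset ψ z)) := by
  unfold SS gg
  congr 1
  apply Finset.filter_congr
  intro i _
  show decide (symmDiff A (zset ψ (PS.flip z i)) ∈ F) ≠ decide (symmDiff A (zset ψ z) ∈ F) ↔ _
  rw [zset_flip, ← symmDiff_assoc]
  rw [ne_eq, decide_eq_decide]

/-- the boundary is an average of sensitivities -/
lemma bdry_eq (F : Finset (Finset X)) (ψ : Fin n ↪ X) :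
    (bdry F ψ : ℝ) = ∑ A : Finset X,
      Ex uw (fun z : Fin n → Bool =>
        (SS (fun z : Fin n → Bool => decide (symmDiff A (zset ψ z) ∈ F)) z : ℝ)) := by
  rw [← Ex_sum]
  have h1 : (fun z : Fin n → Bool => ∑ A : Finset X,
      (SS (fun z : Fin n → Bool => decide (symmDiff A (zset ψ z) ∈ F)) z : ℝ)) =
      fun _ => (bdry F ψ : ℝ) := by
    funext z
    simp only [SS_eq]
    rw [sum_symm (zset ψ z) (fun A => (gg F ψ A : ℝ))]
    unfold bdry
    push_cast
    rfl
  rw [h1, Ex_const uw_sum]

/-- the sensitivity of a function of several functions -/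
lemma SS_comb {I : Type} [Fintype I] [DecidableEq I] {r : ℕ} (f : Fin r → (I → Bool) → Bool)
    (g : (I → Bool) → Bool) (hg : ∀ x y, (∀ k, f k x = f k y) → g x = g y) (z : I → Bool) :
    SS g z ≤ ∑ k, SS (f k) z := by
  unfold SS
  refine le_trans (Finset.card_le_card (t := univ.biUnion fun k =>
    univ.filter fun i => f k (PS.flip z i) ≠ f k z) ?_) Finset.card_biUnion_le
  intro i hi
  rw [Finset.mem_filter] at hi
  by_contra hcon
  apply hi.2
  apply hg
  intro k
  by_contra hk
  exact hcon (Finset.mem_biUnion.2 ⟨k, mem_univ _, Finset.mem_filter.2 ⟨mem_univ _, hk⟩⟩)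

end avg

end Pool.Agent.H284.HJ
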