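import Pool.Agent.Run7.h284.HJ.Main
import Pool.Agent.Run7.h284.KH.Khr

/-!
# Families decided by formulas
-/

set_option autoImplicit false

namespace Pool.Agent.H284.HJ

open Finset Function H568R2 Pool.Agent.H284.PS Pool.Agent.H284.KH

section reads

variable {X : Type} [DecidableEq X]

/-- every leaf reads at most `t` inputs -/
def Narrow (t : ℕ) : Fml X → Prop
  | .leaf s _ => s.card ≤ t
  | .neg f => Narrow t f
  | .and f g => Narrow t f ∧ Narrow t g
  | .or f g => Narrow t f ∧ Narrow t g

/-- the number of leaves which read `x` -/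
def reads (x : X) : Fml X → ℕ
  | .leaf s _ => if x ∈ s then 1 else 0
  | .neg f => reads x f
  | .and f g => reads x f + reads x g
  | .or f g => reads x f + reads x g

lemma cost_le {t : ℕ} (U : Finset X) (f : Fml X) (hf : Narrow t f) :
    f.cost U ≤ t * ∑ x ∈ U, reads x f := by
  induction f with
  | leaf s g =>
    show (s ∩ U).card ^ 2 ≤ t * ∑ x ∈ U, if x ∈ s then 1 else 0
    have h1 : (∑ x ∈ U, if x ∈ s then 1 else 0) = (s ∩ U).card := by
      rw [← Finset.card_filter, Finset.filter_mem_eq_inter, Finset.inter_comm]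
    rw [h1, sq]
    exact Nat.mul_le_mul_right _ ((Finset.card_le_card Finset.inter_subset_left).trans hf)
  | neg f ih => exact ih hf
  | and f g ihf ihg =>
    show f.cost U + g.cost U ≤ t * ∑ x ∈ U, (reads x f + reads x g)
    rw [Finset.sum_add_distrib, mul_add]
    exact Nat.add_le_add (ihf hf.1) (ihg hf.2)
  | or f g ihf ihg =>
    show f.cost U + g.cost U ≤ t * ∑ x ∈ U, (reads x f + reads x g)
    rw [Finset.sum_add_distrib, mul_add]
    exact Nat.add_le_add (ihf hf.1) (ihg hf.2)

end reads

section fib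

variable {X Y : Type} [Fintype X] [DecidableEq X] [Fintype Y] [DecidableEq Y]

/-- the number of pairs of a member of the family and a point of the block whose change leaves the
family -/
def fbd (F : Finset (Finset X)) (φ : Y ↪ X) : ℕ :=
  ∑ A ∈ F, (univ.filter fun c : Y => symmDiff A {φ c} ∉ F).card

omit [Fintype X] [Fintype Y] in
lemma map_insert' (φ : Y ↪ X) {c : Y} {t : Finset Y} (hc : c ∉ t) :
    (insert c t).map φ = symmDiff (t.map φ) {φ c} := by
  rw [Finset.map_insert]
  ext x
  simp only [Finset.mem_insert, Finset.mem_symmDiff, Finset.mem_singleton]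
  constructor
  · rintro (h | h)
    · right
      refine ⟨h, fun h2 => ?_⟩
      rw [h] at h2
      exact hc ((Finset.mem_map' φ).1 h2)
    · left
      refine ⟨h, fun h2 => ?_⟩
      rw [h2] at h
      exact hc ((Finset.mem_map' φ).1 h)
  · rintro (h | h)
    · exact Or.inr h.1
    · exact Or.inl h.1

omit [Fintype X] [Fintype Y] in
lemma leave_le (F : Finset (Finset X)) (φ : Y ↪ X) (t : Finset Y) :
    (F.filter fun A => symmDiff A (t.map φ) ∉ F).card ≤
      ∑ c ∈ t, (F.filter fun A => symmDiff A {φ c} ∉ F).card := by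
  classical
  induction t using Finset.induction_on with
  | empty =>
    rw [sum_empty, Nat.le_zero, card_eq_zero, filter_eq_empty_iff]
    intro A hA
    rw [Finset.map_empty, ← Finset.bot_eq_empty, symmDiff_bot]
    exact not_not.2 hA
  | insert c t hc ih =>
    rw [sum_insert hc]
    have h1 : (F.filter fun A => symmDiff A ((insert c t).map φ) ∉ F) ⊆
        (F.filter fun A => symmDiff A (t.map φ) ∉ F) ∪
          ((F.filter fun A => symmDiff A {φ c} ∉ F).image fun A => symmDiff A (t.map φ)) := by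
      intro A hA
      rw [mem_filter, map_insert' φ hc, ← symmDiff_assoc] at hA
      rw [mem_union]
      by_cases h : symmDiff A (t.map φ) ∈ F
      · right
        rw [mem_image]
        exact ⟨symmDiff A (t.map φ), mem_filter.2 ⟨h, hA.2⟩, symm_invol (t.map φ) A⟩
      · left
        exact mem_filter.2 ⟨hA.1, h⟩
    refine (card_le_card h1).trans ((card_union_le _ _).trans ?_)
    have h2 : ((F.filter fun A => symmDiff A {φ c} ∉ F).image
        fun A => symmDiff A (t.map φ)).card ≤ (F.filter fun A => symmDiff A {φ c} ∉ F).card :=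
      card_image_le
    omega

omit [Fintype X] in
lemma sum_leave (F : Finset (Finset X)) (φ : Y ↪ X) :
    ∑ c : Y, (F.filter fun A => symmDiff A {φ c} ∉ F).card = fbd F φ := by
  unfold fbd
  simp only [Finset.card_filter]
  exact Finset.sum_comm

omit [Fintype X] in
lemma fib2 (F S : Finset (Finset X)) (φ : Y ↪ X) (r : ℕ)
    (hr : ∀ A : Finset X, (univ.filter fun t : Finset Y => symmDiff A (t.map φ) ∈ S).card ≤ r) :
    2 ^ Fintype.card Y * (S ∩ F).card ≤ r * F.card + 2 ^ Fintype.card Y * fbd F φ := by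
  classical
  have h1 : ∀ t : Finset Y, (S ∩ F).card ≤
      (F.filter fun A => symmDiff A (t.map φ) ∈ S).card + fbd F φ := by
    intro t
    have h2 : (F.filter fun A => symmDiff A (t.map φ) ∉ F).card ≤ fbd F φ := by
      rw [← sum_leave]
      exact (leave_le F φ t).trans (Finset.sum_le_sum_of_subset (Finset.subset_univ t))
    have h4 : S ∩ F ⊆ ((F.filter fun A => symmDiff A (t.map φ) ∈ S).image
        fun A => symmDiff A (t.map φ)) ∪ (F.filter fun A => symmDiff A (t.map φ) ∉ F) := by
      intro A hA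
      rw [mem_inter] at hA
      rw [mem_union]
      by_cases h : symmDiff A (t.map φ) ∈ F
      · left
        rw [mem_image]
        refine ⟨symmDiff A (t.map φ), mem_filter.2 ⟨h, ?_⟩, symm_invol (t.map φ) A⟩
        rw [show symmDiff (symmDiff A (t.map φ)) (t.map φ) = A from symm_invol (t.map φ) A]
        exact hA.1
      · right
        exact mem_filter.2 ⟨hA.2, h⟩
    have h5 := (card_le_card h4).trans (card_union_le _ _)
    have h6 : ((F.filter fun A => symmDiff A (t.map φ) ∈ S).image
        fun A => symmDiff A (t.map φ)).card ≤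
          (F.filter fun A => symmDiff A (t.map φ) ∈ S).card := card_image_le
    omega
  have h5 := sum_le_sum fun t (_ : t ∈ (univ : Finset (Finset Y))) => h1 t
  rw [sum_const, card_univ, smul_eq_mul, sum_add_distrib, sum_const, card_univ, smul_eq_mul,
    Fintype.card_finset] at h5
  have h6 : ∑ t : Finset Y, (F.filter fun A => symmDiff A (t.map φ) ∈ S).card ≤ r * F.card := by
    have e : ∑ t : Finset Y, (F.filter fun A => symmDiff A (t.map φ) ∈ S).card =
        ∑ A ∈ F, (univ.filter fun t : Finset Y => symmDiff A (t.map φ) ∈ S).card := by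
      simp only [card_filter]
      exact sum_comm
    rw [e, mul_comm, ← smul_eq_mul, ← sum_const]
    exact sum_le_sum fun A _ => hr A
  omega

end fib

section fml

variable {X : Type} [Fintype X] [DecidableEq X] {n : ℕ}

/-- the members of the family in a fibre -/
def fibre (F : Finset (Finset X)) (ψ : Fin n ↪ X) (A : Finset X) : Finset (Fin n → Bool) :=
  univ.filter fun z => symmDiff A (zset ψ z) ∈ F

/-- the other points of the fibre -/
def cofibre (F : Finset (Finset X)) (ψ : Fin n ↪ X) (A : Finset X) : Finset (Fin n → Bool) :=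
  univ.filter fun z => ¬ symmDiff A (zset ψ z) ∈ F

omit [Fintype X] in
lemma fibre_card (F : Finset (Finset X)) (ψ : Fin n ↪ X) (A : Finset X) :
    (fibre F ψ A).card + (cofibre F ψ A).card = 2 ^ n := by
  have h1 := Finset.card_filter_add_card_filter_not (s := (univ : Finset (Fin n → Bool)))
    (fun z => symmDiff A (zset ψ z) ∈ F)
  rw [Finset.card_univ, Fintype.card_fun, Fintype.card_bool, Fintype.card_fin] at h1
  exact h1

lemma sum_fibre (F : Finset (Finset X)) (ψ : Fin n ↪ X) :
    ∑ A : Finset X, (fibre F ψ A).card = 2 ^ n * F.card := by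
  unfold fibre
  simp only [Finset.card_filter]
  rw [Finset.sum_comm]
  have h1 : ∀ z : Fin n → Bool, (∑ A : Finset X, if symmDiff A (zset ψ z) ∈ F then 1 else 0) =
      F.card := by
    intro z
    rw [sum_symm (zset ψ z) (fun A => if A ∈ F then 1 else 0), Finset.sum_boole]
    rw [Finset.filter_mem_eq_inter, Finset.univ_inter]
    rfl
  simp only [h1]
  rw [Finset.sum_const, Finset.card_univ, Fintype.card_fun, Fintype.card_bool, Fintype.card_fin,
    smul_eq_mul]

omit [Fintype X] in
lemma EE_fibre (F : Finset (Finset X)) (ψ : Fin n ↪ X) (A : Finset X) :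
    EE (fibre F ψ A) (cofibre F ψ A) = ∑ z ∈ fibre F ψ A,
      (univ.filter fun i : Fin n => symmDiff (symmDiff A (zset ψ z)) {ψ i} ∉ F).card := by
  unfold EE
  simp only [Finset.card_filter]
  rw [Finset.sum_comm]
  apply Finset.sum_congr rfl
  intro z _
  apply Finset.sum_congr rfl
  intro i _
  have h1 : PS.flip z i ∈ cofibre F ψ A ↔ symmDiff (symmDiff A (zset ψ z)) {ψ i} ∉ F := by
    unfold cofibre
    rw [Finset.mem_filter, zset_flip, ← symmDiff_assoc]
    simp
  by_cases h : symmDiff (symmDiff A (zset ψ z)) {ψ i} ∉ F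
  · rw [if_pos h, if_pos (h1.2 h)]
  · rw [if_neg h, if_neg (fun h2 => h (h1.1 h2))]

lemma sum_EE (F : Finset (Finset X)) (ψ : Fin n ↪ X) :
    ∑ A : Finset X, EE (fibre F ψ A) (cofibre F ψ A) = 2 ^ n * fbd F ψ := by
  classical
  obtain ⟨G, hG⟩ : ∃ G : Finset X → ℕ, G = fun B => if B ∈ F then
    (univ.filter fun i : Fin n => symmDiff B {ψ i} ∉ F).card else 0 := ⟨_, rfl⟩
  have h1 : ∀ A : Finset X, EE (fibre F ψ A) (cofibre F ψ A) =
      ∑ z : Fin n → Bool, G (symmDiff A (zset ψ z)) := by
    intro A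
    rw [EE_fibre, hG]
    unfold fibre
    rw [Finset.sum_filter]
  simp only [h1]
  rw [Finset.sum_comm]
  have h2 : ∀ z : Fin n → Bool, ∑ A : Finset X, G (symmDiff A (zset ψ z)) = fbd F ψ := by
    intro z
    rw [sum_symm (zset ψ z) G, hG]
    unfold fbd
    rw [← Finset.sum_filter, Finset.filter_mem_eq_inter, Finset.univ_inter]
  simp only [h2]
  rw [Finset.sum_const, Finset.card_univ, Fintype.card_fun, Fintype.card_bool, Fintype.card_fin,
    smul_eq_mul]

/-- Khrapchenko's bound in a fibre -/
lemma khr_fibre {F : Finset (Finset X)} {f : Fml X} (hF : ∀ A, A ∈ F ↔ f.eval (ind A) = true)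
    (hn : 0 < n) (ψ : Fin n ↪ X) (A : Finset X) :
    (EE (fibre F ψ A) (cofibre F ψ A) : ℝ) ^ 2 ≤
      (f.cost (univ.map ψ) : ℝ) * (fibre F ψ A).card * (cofibre F ψ A).card := by
  apply khr (fun z : Fin n → Bool => ind (symmDiff A (zset ψ z))) (single ψ hn A) (univ.map ψ)
  · intro x hx z i
    show decide (x ∈ symmDiff A (zset ψ (PS.flip z i))) = decide (x ∈ symmDiff A (zset ψ z))
    have h1 : ∀ z : Fin n → Bool, x ∉ zset ψ z := by
      intro z hz
      exact hx (Finset.map_subset_map.2 (Finset.subset_univ _) hz)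
    rw [decide_eq_decide, Finset.mem_symmDiff, Finset.mem_symmDiff]
    simp [h1]
  · intro z hz
    unfold fibre at hz
    exact (hF _).1 (Finset.mem_filter.1 hz).2
  · intro z hz
    unfold cofibre at hz
    have h1 := (Finset.mem_filter.1 hz).2
    rw [hF] at h1
    simpa using h1

/-- the boundary of a family decided by a formula -/
lemma fbd_fml {F : Finset (Finset X)} {f : Fml X} (hF : ∀ A, A ∈ F ↔ f.eval (ind A) = true)
    (hn : 0 < n) (ψ : Fin n ↪ X) {lam : ℝ} (hl : 0 < lam) :
    2 * (fbd F ψ : ℝ) ≤ lam * F.card + f.cost (univ.map ψ) / lam * 2 ^ Fintype.card X := by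
  classical
  obtain ⟨q, hq⟩ : ∃ q : ℝ, q = f.cost (univ.map ψ) := ⟨_, rfl⟩
  have hq0 : 0 ≤ q := by rw [hq]; exact Nat.cast_nonneg _
  rw [← hq]
  have h1 : ∀ A : Finset X, 2 * (EE (fibre F ψ A) (cofibre F ψ A) : ℝ) ≤
      lam * (fibre F ψ A).card + q / lam * 2 ^ n := by
    intro A
    apply amgm (by positivity) (by positivity)
    refine (khr_fibre hF hn ψ A).trans ?_
    rw [← hq]
    have h2 : ((cofibre F ψ A).card : ℝ) ≤ 2 ^ n := by
      have := fibre_card F ψ A
      have h3 : (cofibre F ψ A).card ≤ 2 ^ n := by omega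
      exact_mod_cast h3
    calc q * (fibre F ψ A).card * (cofibre F ψ A).card ≤ q * (fibre F ψ A).card * 2 ^ n :=
          mul_le_mul_of_nonneg_left h2 (by positivity)
      _ = lam * (fibre F ψ A).card * (q / lam * 2 ^ n) := by field_simp
  have h2 := Finset.sum_le_sum fun A (_ : A ∈ (univ : Finset (Finset X))) => h1 A
  rw [← Finset.mul_sum, Finset.sum_add_distrib, ← Finset.mul_sum, Finset.sum_const,
    Finset.card_univ, Fintype.card_finset, nsmul_eq_mul] at h2
  have h3 : ∑ A : Finset X, (EE (fibre F ψ A) (cofibre F ψ A) : ℝ) = 2 ^ n * fbd F ψ := by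
    exact_mod_cast sum_EE F ψ
  have h4 : ∑ A : Finset X, ((fibre F ψ A).card : ℝ) = 2 ^ n * F.card := by
    exact_mod_cast sum_fibre F ψ
  rw [h3, h4] at h2
  push_cast at h2
  have h5 : (0 : ℝ) < 2 ^ n := by positivity
  have h6 : (2 : ℝ) ^ n * (2 * (fbd F ψ : ℝ)) ≤
      2 ^ n * (lam * F.card + q / lam * 2 ^ Fintype.card X) := by
    calc (2 : ℝ) ^ n * (2 * (fbd F ψ : ℝ)) = 2 * (2 ^ n * fbd F ψ) := by ring
      _ ≤ _ := h2
      _ = _ := by ring
  exact le_of_mul_le_mul_left h6 h5

/-- a family decided by a formula all of whose members leave it if one of the points is changed -/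
lemma all_leave {F : Finset (Finset X)} {f : Fml X} (hF : ∀ A, A ∈ F ↔ f.eval (ind A) = true)
    (hn : 0 < n) (ψ : Fin n ↪ X) (hall : ∀ A ∈ F, ∀ i, symmDiff A {ψ i} ∉ F) :
    (n ^ 2 + f.cost (univ.map ψ)) * F.card ≤ f.cost (univ.map ψ) * 2 ^ Fintype.card X := by
  classical
  obtain ⟨q, hq⟩ : ∃ q : ℕ, q = f.cost (univ.map ψ) := ⟨_, rfl⟩
  rw [← hq]
  have h1 : ∀ A : Finset X, (n ^ 2 + q) * (fibre F ψ A).card ≤ q * 2 ^ n := by
    intro A
    have e1 : EE (fibre F ψ A) (cofibre F ψ A) = n * (fibre F ψ A).card := by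
      rw [EE_fibre]
      have e2 : ∀ z ∈ fibre F ψ A,
          (univ.filter fun i : Fin n => symmDiff (symmDiff A (zset ψ z)) {ψ i} ∉ F).card = n := by
        intro z hz
        rw [Finset.filter_true_of_mem, Finset.card_univ, Fintype.card_fin]
        intro i _
        unfold fibre at hz
        exact hall _ (Finset.mem_filter.1 hz).2 i
      rw [Finset.sum_congr rfl e2, Finset.sum_const, smul_eq_mul, mul_comm]
    have e3 := khr_fibre hF hn ψ A
    rw [e1, ← hq] at e3
    have e4 : (n * (fibre F ψ A).card) ^ 2 ≤ q * (fibre F ψ A).card * (cofibre F ψ A).card := by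
      exact_mod_cast e3
    have e5 := fibre_card F ψ A
    obtain ⟨u, hu⟩ : ∃ u : ℕ, u = (fibre F ψ A).card := ⟨_, rfl⟩
    obtain ⟨v, hv⟩ : ∃ v : ℕ, v = (cofibre F ψ A).card := ⟨_, rfl⟩
    rw [← hu, ← hv] at e4 e5
    rw [← hu, ← e5]
    rcases Nat.eq_zero_or_pos u with h0 | h0
    · rw [h0]
      simp
    · have e6 : u * (n ^ 2 * u) ≤ u * (q * v) := by
        calc u * (n ^ 2 * u) = (n * u) ^ 2 := by ring
          _ ≤ q * u * v := e4
          _ = _ := by ring
      have e7 := Nat.le_of_mul_le_mul_left e6 h0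
      calc (n ^ 2 + q) * u = n ^ 2 * u + q * u := by ring
        _ ≤ q * v + q * u := Nat.add_le_add_right e7 _
        _ = q * (u + v) := by ring
  have h2 := Finset.sum_le_sum fun A (_ : A ∈ (univ : Finset (Finset X))) => h1 A
  rw [← Finset.mul_sum, sum_fibre, Finset.sum_const, Finset.card_univ, Fintype.card_finset,
    smul_eq_mul] at h2
  have h3 : 2 ^ n * ((n ^ 2 + q) * F.card) ≤ 2 ^ n * (q * 2 ^ Fintype.card X) := by
    calc 2 ^ n * ((n ^ 2 + q) * F.card) = (n ^ 2 + q) * (2 ^ n * F.card) := by ring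
      _ ≤ _ := h2
      _ = _ := by ring
  exact Nat.le_of_mul_le_mul_left h3 (by positivity)

end fml

end Pool.Agent.H284.HJ
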