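import Pool.Agent.Run7.h284.HJ.Form

/-!
# Families which are not good inside families decided by formulas
-/

set_option autoImplicit false

namespace Pool.Agent.H284.HJ

open Finset Function H568R2 Pool.Agent.H284.PS Pool.Agent.H284.KH

variable {h N : ℕ}

/-- a family which is not good is left by every change of a diagonal point -/
lemma leave_diag {F : Finset (Finset (Fin h → Fin N))} (hc : ¬ GoodH F)
    {A : Finset (Fin h → Fin N)} (hA : A ∈ F) (i : Fin N) :
    symmDiff A {fun _ => i} ∉ F := by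
  intro h3
  have hcube : Fintype.piFinset (fun _ : Fin h => ({i} : Finset (Fin N))) = {fun _ => i} := by
    ext c
    simp [Fintype.mem_piFinset, funext_iff]
  by_cases h4 : (fun _ => i) ∈ A
  · apply hc
    refine ⟨_, h3, {i}, singleton_nonempty i, ?_, ?_⟩
    · rw [hcube, disjoint_singleton_right, mem_symmDiff]
      simp [h4]
    · rw [hcube]
      convert hA using 1
      ext c
      simp only [mem_union, mem_symmDiff, mem_singleton]
      constructor
      · rintro ((⟨h5, -⟩ | ⟨h5, h6⟩) | h5)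
        · exact h5
        · rw [h5] at h6
          exact absurd h4 h6
        · rw [h5]
          exact h4
      · intro h5
        by_cases h6 : c = fun _ => i
        · exact Or.inr h6
        · exact Or.inl (Or.inl ⟨h5, h6⟩)
  · apply hc
    refine ⟨_, hA, {i}, singleton_nonempty i, ?_, ?_⟩
    · rw [hcube, disjoint_singleton_right]
      exact h4
    · rw [hcube]
      convert h3 using 1
      ext c
      simp only [mem_union, mem_symmDiff, mem_singleton]
      constructor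
      · rintro (h5 | h5)
        · exact Or.inl ⟨h5, fun h6 => h4 (h6 ▸ h5)⟩
        · exact Or.inr ⟨h5, fun h6 => h4 (h5 ▸ h6)⟩
      · rintro (⟨h5, -⟩ | ⟨h5, -⟩)
        · exact Or.inl h5
        · exact Or.inr h5

/-- the diagonal -/
def diag (hh : 1 ≤ h) : Fin N ↪ (Fin h → Fin N) where
  toFun i := fun _ => i
  inj' i j hij := congrFun hij ⟨0, hh⟩

lemma card_pts : Fintype.card (Fin h → Fin N) = N ^ h := by simp

/-- **Families decided by formulas which are not good.** -/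
theorem fml_small (hh : 1 ≤ h) (hN : 1 ≤ N) {F : Finset (Finset (Fin h → Fin N))}
    {f : Fml (Fin h → Fin N)} (hF : ∀ A, A ∈ F ↔ f.eval (ind A) = true) (hc : ¬ GoodH F) :
    (N ^ 2 + f.cost (univ.map (diag hh))) * F.card ≤
      f.cost (univ.map (diag hh)) * 2 ^ (N ^ h) := by
  have h1 := all_leave hF hN (diag hh) (fun A hA i => leave_diag hc hA i)
  rw [card_pts] at h1
  exact h1

lemma alg2 {K P f b r s : ℝ} (hK : 0 < K) (hP : 0 < P)
    (hs : K * (P * s) ≤ K * (r * f) + P * b) : s ≤ r / P * f + b / K := by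
  have h7 : r / P * f + b / K = (K * (r * f) + P * b) / (K * P) := by
    field_simp
  rw [h7, le_div_iff₀ (by positivity)]
  calc s * (K * P) = K * (P * s) := by ring
    _ ≤ _ := hs

/-- families that are not good inside families decided by formulas, one value of `m` -/
lemma rel_fml (hh : 1 ≤ h) {m : ℕ} (hm : 1 ≤ m) (hmn : m ≤ N)
    {F S : Finset (Finset (Fin h → Fin N))} (hS : ¬ GoodH S) {r : ℕ}
    (hr : ∀ B : Finset (Finset (Fin h → Fin m)), ¬ GoodH B → B.card ≤ r)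
    {f : Fml (Fin h → Fin N)} (hF : ∀ A, A ∈ F ↔ f.eval (ind A) = true) {t R : ℕ}
    (hf : Narrow t f) (hR : ∀ x, reads x f ≤ R) {ε : ℝ} (hε : 0 < ε) :
    ((S ∩ F).card : ℝ) ≤ (r / 2 ^ (m ^ h) + ε) * F.card +
      t * R * m ^ h / (4 * ε * (N / m : ℕ)) * 2 ^ (N ^ h) := by
  classical
  have hK1 : 1 ≤ N / m := (Nat.one_le_div_iff hm).2 hmn
  have hcY : Fintype.card (Fin h → Fin m) = m ^ h := by simp
  obtain ⟨n, hn⟩ : ∃ n : ℕ, n = N / m * m ^ h := ⟨_, rfl⟩
  have hcard : Fintype.card (Fin (N / m) × (Fin h → Fin m)) = n := by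
    rw [Fintype.card_prod, hcY, Fintype.card_fin, hn]
  obtain ⟨e⟩ : Nonempty (Fin n ≃ Fin (N / m) × (Fin h → Fin m)) := by
    refine ⟨(Fintype.equivFinOfCardEq hcard).symm⟩
  obtain ⟨ψ, hψ⟩ : ∃ ψ : Fin n ↪ (Fin h → Fin N), ψ = e.toEmbedding.trans (blocks hh) :=
    ⟨_, rfl⟩
  have hsum : ∑ j : Fin (N / m), fbd F (cellEmb (h := h) j.2) = fbd F ψ := by
    rw [hψ]
    unfold fbd
    rw [Finset.sum_comm]
    apply Finset.sum_congr rfl
    intro A _
    simp only [Finset.card_filter]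
    rw [← Fintype.sum_prod_type' (f := fun (j : Fin (N / m)) (c : Fin h → Fin m) =>
      if symmDiff A {cellEmb (h := h) j.2 c} ∉ F then 1 else 0)]
    rw [← Equiv.sum_comp e]
    rfl
  have h1 : ∀ j : Fin (N / m), (2 : ℝ) ^ (m ^ h) * (S ∩ F).card ≤
      r * F.card + 2 ^ (m ^ h) * fbd F (cellEmb (h := h) j.2) := by
    intro j
    have e1 := fib2 F S (cellEmb (h := h) j.2) r (few hS hr j.2)
    rw [hcY] at e1
    exact_mod_cast e1
  have h2 : ∑ _j : Fin (N / m), (2 : ℝ) ^ (m ^ h) * (S ∩ F).card ≤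
      ∑ j : Fin (N / m), (r * F.card + 2 ^ (m ^ h) *
        (fbd F (cellEmb (h := h) j.2) : ℝ)) := Finset.sum_le_sum fun j _ => h1 j
  rw [Finset.sum_const, Finset.sum_add_distrib, Finset.sum_const, ← Finset.mul_sum,
    Finset.card_univ, Fintype.card_fin, nsmul_eq_mul, nsmul_eq_mul] at h2
  have h3 : ∑ j : Fin (N / m), (fbd F (cellEmb (h := h) j.2) : ℝ) = fbd F ψ := by
    exact_mod_cast hsum
  rw [h3] at h2
  obtain ⟨K, hK⟩ : ∃ K : ℝ, K = ((N / m : ℕ) : ℝ) := ⟨_, rfl⟩
  have hK0 : 0 < K := by rw [hK]; exact_mod_cast hK1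
  rw [← hK] at h2 ⊢
  have h4 := alg2 (r := (r : ℝ)) hK0 (by positivity : (0 : ℝ) < 2 ^ (m ^ h)) h2
  have hn0 : 0 < n := by
    rw [hn]
    exact Nat.mul_pos hK1 (Nat.pow_pos hm)
  have h5 := fbd_fml hF hn0 ψ (lam := 2 * K * ε) (by positivity)
  rw [card_pts] at h5
  have hq : (f.cost (univ.map ψ) : ℝ) ≤ t * R * (K * m ^ h) := by
    have e1 : f.cost (univ.map ψ) ≤ t * (R * n) := by
      refine (cost_le _ f hf).trans (Nat.mul_le_mul_left _ ?_)
      refine (Finset.sum_le_sum fun x _ => hR x).trans (le_of_eq ?_)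
      rw [Finset.sum_const, Finset.card_map, Finset.card_univ, Fintype.card_fin, smul_eq_mul,
        mul_comm]
    have e2 : (f.cost (univ.map ψ) : ℝ) ≤ t * (R * n) := by exact_mod_cast e1
    have e3 : (n : ℝ) = K * m ^ h := by rw [hn, hK]; push_cast; ring
    rw [e3] at e2
    linarith
  obtain ⟨q, hqq⟩ : ∃ q : ℝ, q = f.cost (univ.map ψ) := ⟨_, rfl⟩
  rw [← hqq] at h5 hq
  have h6 : (fbd F ψ : ℝ) / K ≤ ε * F.card + t * R * m ^ h / (4 * ε * K) * 2 ^ (N ^ h) := by
    rw [div_le_iff₀ hK0]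
    have e1 : q / (2 * K * ε) ≤ t * R * m ^ h / (2 * ε) := by
      rw [div_le_div_iff₀ (by positivity) (by positivity)]
      calc q * (2 * ε) ≤ (t * R * (K * m ^ h)) * (2 * ε) :=
            mul_le_mul_of_nonneg_right hq (by positivity)
        _ = _ := by ring
    have e2 : q / (2 * K * ε) * 2 ^ (N ^ h) ≤ t * R * m ^ h / (2 * ε) * 2 ^ (N ^ h) :=
      mul_le_mul_of_nonneg_right e1 (by positivity)
    have e3 : (ε * F.card + t * R * m ^ h / (4 * ε * K) * 2 ^ (N ^ h)) * K =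
        (2 * K * ε * F.card + t * R * m ^ h / (2 * ε) * 2 ^ (N ^ h)) / 2 := by
      field_simp
      ring
    rw [e3]
    linarith
  linarith

/-- **The relative form inside families decided by formulas.** -/
theorem fml_main (h : ℕ) (hh : 1 ≤ h) (θ θ' : ℝ) (hθ0 : 0 ≤ θ) (hθ : θ < θ')
    (hcrit : ∀ δ : ℝ, θ < δ → ∃ m : ℕ, 1 ≤ m ∧ ∀ S : Finset (Finset (Fin h → Fin m)),
      δ * (2 : ℝ) ^ (m ^ h) < S.card → GoodH S) :
    ∃ C : ℝ, 0 < C ∧ ∀ N t R : ℕ, 1 ≤ N → 1 ≤ t → 1 ≤ R → ∀ f : Fml (Fin h → Fin N),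
      Narrow t f → (∀ x, reads x f ≤ R) → ∀ F S : Finset (Finset (Fin h → Fin N)),
      (∀ A, A ∈ F ↔ f.eval (ind A) = true) → ¬ GoodH S →
      ((S ∩ F).card : ℝ) ≤ θ' * F.card + C * (t * R / N) * 2 ^ (N ^ h) := by
  classical
  obtain ⟨ε, hε'⟩ : ∃ ε : ℝ, ε = (θ' - θ) / 2 := ⟨_, rfl⟩
  have hε : 0 < ε := by rw [hε']; linarith
  obtain ⟨m, hm, hm2⟩ := hcrit ((θ + θ') / 2) (by linarith)
  have hm0 : (0 : ℝ) < m := by exact_mod_cast hm
  refine ⟨m + m * m ^ h / (2 * ε), by positivity, ?_⟩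
  intro N t R hN ht hR f hf hfR F S hF hS
  have hN0 : (0 : ℝ) < N := by exact_mod_cast hN
  have ht0 : (1 : ℝ) ≤ t := by exact_mod_cast ht
  have hR0 : (1 : ℝ) ≤ R := by exact_mod_cast hR
  have htR : (1 : ℝ) ≤ t * R := by nlinarith
  have hθF : 0 ≤ θ' * F.card := by
    have : 0 ≤ θ' := by linarith
    positivity
  rcases le_or_gt m N with hmn | hnm
  · have hr' : ∀ B : Finset (Finset (Fin h → Fin m)), ¬ GoodH B →
        B.card ≤ ⌊(θ + θ') / 2 * 2 ^ (m ^ h)⌋₊ := by
      intro B hB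
      apply Nat.le_floor
      by_contra hcon
      push Not at hcon
      exact hB (hm2 B hcon)
    have h1 := rel_fml hh hm hmn hS hr' hF hf hfR hε
    have h2 : ((⌊(θ + θ') / 2 * 2 ^ (m ^ h)⌋₊ : ℕ) : ℝ) / 2 ^ (m ^ h) ≤ (θ + θ') / 2 := by
      rw [div_le_iff₀ (by positivity)]
      apply Nat.floor_le
      have : 0 ≤ (θ + θ') / 2 := by linarith
      positivity
    have h3 : (((⌊(θ + θ') / 2 * 2 ^ (m ^ h)⌋₊ : ℕ) : ℝ) / 2 ^ (m ^ h) + ε) * F.card ≤
        θ' * F.card := by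
      apply mul_le_mul_of_nonneg_right _ (Nat.cast_nonneg _)
      rw [hε']
      linarith
    obtain ⟨K, hK⟩ : ∃ K : ℕ, K = N / m := ⟨_, rfl⟩
    have hK1 : 1 ≤ K := by rw [hK]; exact (Nat.one_le_div_iff hm).2 hmn
    have hNK : N ≤ 2 * m * K := by
      have e1 := Nat.div_add_mod N m
      have e2 := Nat.mod_lt N (show 0 < m by omega)
      rw [← hK] at e1
      have e3 : m * 1 ≤ m * K := Nat.mul_le_mul_left _ (by omega)
      have e4 : 2 * m * K = m * K + m * K := by ring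
      omega
    rw [← hK] at h1
    have hK0 : (0 : ℝ) < K := by exact_mod_cast hK1
    have hNK' : (N : ℝ) ≤ 2 * m * K := by exact_mod_cast hNK
    have h4 : t * R * m ^ h / (4 * ε * K) ≤ (m + m * m ^ h / (2 * ε)) * (t * R / N : ℝ) := by
      have e1 : (t * R * m ^ h / (4 * ε * K) : ℝ) ≤ m * m ^ h / (2 * ε) * (t * R / N) := by
        rw [div_mul_div_comm, div_le_div_iff₀ (by positivity) (by positivity)]
        have e2 : (0 : ℝ) ≤ t * R * m ^ h * (2 * ε) := by positivity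
        calc (t * R * m ^ h * (2 * ε * N) : ℝ) = (t * R * m ^ h * (2 * ε)) * N := by ring
          _ ≤ (t * R * m ^ h * (2 * ε)) * (2 * m * K) := mul_le_mul_of_nonneg_left hNK' e2
          _ = _ := by ring
      have e2 : (0 : ℝ) ≤ m * (t * R / N) := by positivity
      have e3 : (m + m * m ^ h / (2 * ε)) * (t * R / N : ℝ) =
          m * (t * R / N) + m * m ^ h / (2 * ε) * (t * R / N) := by ring
      rw [e3]
      linarith
    have h5 := mul_le_mul_of_nonneg_right h4 (by positivity : (0 : ℝ) ≤ 2 ^ (N ^ h))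
    linarith
  · have h1 : ((S ∩ F).card : ℝ) ≤ 2 ^ (N ^ h) := by
      have := card_le_univ (S ∩ F)
      rw [Fintype.card_finset, card_pts] at this
      exact_mod_cast this
    have h2 : (1 : ℝ) ≤ (m + m * m ^ h / (2 * ε)) * (t * R / N) := by
      have e1 : (N : ℝ) ≤ m := by exact_mod_cast hnm.le
      have e2 : (1 : ℝ) ≤ m * (t * R / N) := by
        rw [← mul_div_assoc, le_div_iff₀ hN0]
        nlinarith
      have e3 : (0 : ℝ) ≤ m * m ^ h / (2 * ε) * (t * R / N) := by positivity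
      have e4 : (m + m * m ^ h / (2 * ε)) * (t * R / N : ℝ) =
          m * (t * R / N) + m * m ^ h / (2 * ε) * (t * R / N) := by ring
      rw [e4]
      linarith
    have h3 := mul_le_mul_of_nonneg_right h2 (by positivity : (0 : ℝ) ≤ 2 ^ (N ^ h))
    linarith

end Pool.Agent.H284.HJ
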