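import Pool.Agent.Run7.h284.HJ.Signs

/-!
# The middle layer of the diagonal
-/

set_option autoImplicit false

namespace Pool.Agent.H284.HJ

open Finset Function H568R2 Pool.Agent.H284.PS Pool.Agent.H284.VX

/-- lower bound for the central binomial coefficient -/
lemma central (n : ℕ) (hn : 1 ≤ n) : 16 ^ n ≤ 4 * n * Nat.centralBinom n ^ 2 := by
  induction n, hn using Nat.le_induction with
  | base => decide
  | succ n hn ih =>
    have h1 := Nat.succ_mul_centralBinom_succ n
    have h2 : (n + 1) * (16 ^ (n + 1)) ≤ (n + 1) * (4 * (n + 1) * Nat.centralBinom (n + 1) ^ 2) := by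
      calc (n + 1) * (16 ^ (n + 1)) = 16 * (n + 1) * 16 ^ n := by ring
        _ ≤ 16 * (n + 1) * (4 * n * Nat.centralBinom n ^ 2) := Nat.mul_le_mul_left _ ih
        _ = 16 * (4 * n * (n + 1)) * Nat.centralBinom n ^ 2 := by ring
        _ ≤ 16 * ((2 * n + 1) ^ 2) * Nat.centralBinom n ^ 2 := by
            apply Nat.mul_le_mul_right
            apply Nat.mul_le_mul_left
            nlinarith
        _ = 4 * (2 * (2 * n + 1) * Nat.centralBinom n) ^ 2 := by ring
        _ = 4 * ((n + 1) * Nat.centralBinom (n + 1)) ^ 2 := by rw [h1]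
        _ = (n + 1) * (4 * (n + 1) * Nat.centralBinom (n + 1) ^ 2) := by ring
    exact Nat.le_of_mul_le_mul_left h2 (Nat.succ_pos n)

section layer

variable {X : Type} [Fintype X] [DecidableEq X] {N : ℕ}

/-- the number of marked points in `A` -/
def cnt (ψ : Fin N ↪ X) (A : Finset X) : ℕ := (univ.filter fun i => ψ i ∈ A).card

/-- the sets with `n` marked points -/
def layer (ψ : Fin N ↪ X) (n : ℕ) : Finset (Finset X) := univ.filter fun A => cnt ψ A = n

lemma fibre_layer (ψ : Fin N ↪ X) (n : ℕ) (A : Finset X) :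
    (fibre (layer ψ n) ψ A).card = N.choose n := by
  classical
  have h0 : (Finset.powersetCard n (univ : Finset (Fin N))).card = N.choose n := by
    rw [Finset.card_powersetCard, Finset.card_univ, Fintype.card_fin]
  rw [← h0]
  apply Finset.card_bij (fun (z : Fin N → Bool) _ => univ.filter fun i => ψ i ∈ symmDiff A (zset ψ z))
  · intro z hz
    unfold fibre layer at hz
    rw [Finset.mem_filter, Finset.mem_filter] at hz
    rw [Finset.mem_powersetCard]
    exact ⟨Finset.subset_univ _, hz.2.2⟩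
  · intro z _ z' _ hzz
    funext i
    have h1 : (ψ i ∈ symmDiff A (zset ψ z)) ↔ (ψ i ∈ symmDiff A (zset ψ z')) := by
      have h2 := Finset.ext_iff.1 hzz i
      simpa using h2
    rw [Finset.mem_symmDiff, Finset.mem_symmDiff, mem_zset, mem_zset] at h1
    by_cases h2 : ψ i ∈ A <;> cases h3 : z i <;> cases h4 : z' i <;> simp_all
  · intro T hT
    rw [Finset.mem_powersetCard] at hT
    refine ⟨fun i => xor (decide (i ∈ T)) (decide (ψ i ∈ A)), ?_, ?_⟩
    · have h1 : (univ.filter fun i => ψ i ∈ symmDiff A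
          (zset ψ fun i => xor (decide (i ∈ T)) (decide (ψ i ∈ A)))) = T := by
        ext i
        rw [Finset.mem_filter, Finset.mem_symmDiff, mem_zset]
        by_cases h2 : ψ i ∈ A <;> by_cases h3 : i ∈ T <;> simp [h2, h3]
      unfold fibre layer cnt
      rw [Finset.mem_filter, Finset.mem_filter, h1]
      exact ⟨mem_univ _, mem_univ _, hT.2⟩
    · ext i
      rw [Finset.mem_filter, Finset.mem_symmDiff, mem_zset]
      by_cases h2 : ψ i ∈ A <;> by_cases h3 : i ∈ T <;> simp [h2, h3]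

lemma layer_card (ψ : Fin N ↪ X) (n : ℕ) :
    2 ^ N * (layer ψ n).card = 2 ^ Fintype.card X * N.choose n := by
  rw [← sum_fibre (layer ψ n) ψ]
  simp only [fibre_layer]
  rw [Finset.sum_const, Finset.card_univ, Fintype.card_finset, smul_eq_mul]

omit [Fintype X] in
lemma cnt_diff (ψ : Fin N ↪ X) (e : X) (A : Finset X) : cnt ψ (A.erase e) ≤ cnt ψ (insert e A) := by
  apply Finset.card_le_card
  intro i hi
  rw [Finset.mem_filter] at hi ⊢
  exact ⟨hi.1, Finset.mem_insert_of_mem (Finset.mem_of_mem_erase hi.2)⟩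

omit [Fintype X] in
lemma cs_cnt (ψ : Fin N ↪ X) (c : ℝ) : CS 1 (fun A : Finset X => (cnt ψ A : ℝ) - c) := by
  intro e
  left
  intro A
  unfold diff
  have h1 : (cnt ψ (A.erase e) : ℝ) ≤ cnt ψ (insert e A) := by exact_mod_cast cnt_diff ψ e A
  linarith

end layer

section main

variable {h : ℕ}

/-- the layers of the diagonal are not good -/
lemma layer_bad (hh : 1 ≤ h) {N : ℕ} (n : ℕ) : ¬ GoodH (layer (diag (N := N) hh) n) := by
  rintro ⟨A, hA, γ, hγ, hd, hu⟩
  unfold layer at hA hu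
  rw [Finset.mem_filter] at hA hu
  have h1 : cnt (diag (N := N) hh) A < cnt (diag (N := N) hh) (A ∪ Fintype.piFinset fun _ => γ) := by
    apply Finset.card_lt_card
    rw [Finset.ssubset_iff_of_subset]
    · obtain ⟨i, hi⟩ := hγ
      refine ⟨i, ?_, ?_⟩
      · rw [Finset.mem_filter]
        exact ⟨mem_univ _, Finset.mem_union_right _ (Fintype.mem_piFinset.2 fun _ => hi)⟩
      · rw [Finset.mem_filter]
        rintro ⟨-, h2⟩
        exact (Finset.disjoint_left.1 hd h2) (Fintype.mem_piFinset.2 fun _ => hi)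
    · intro i hi
      rw [Finset.mem_filter] at hi ⊢
      exact ⟨hi.1, Finset.mem_union_left _ hi.2⟩
  omega

/-- **The bound is sharp for unate functions.** -/
theorem sharp (hh : 1 ≤ h) (n : ℕ) (hn : 1 ≤ n) :
    ∃ (f : Fin 2 → Finset (Fin h → Fin (2 * n)) → ℝ) (R : (Fin 2 → Prop) → Prop)
      (F : Finset (Finset (Fin h → Fin (2 * n)))), (∀ i, CS 1 (f i)) ∧
      (∀ A, A ∈ F ↔ R fun i => 0 < f i A) ∧ ¬ GoodH F ∧
      2 ^ ((2 * n) ^ h) ≤ Real.sqrt (2 * (2 * n : ℕ)) * F.card := by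
  obtain ⟨ψ, hψ⟩ : ∃ ψ : Fin (2 * n) ↪ (Fin h → Fin (2 * n)), ψ = diag hh := ⟨_, rfl⟩
  refine ⟨fun i A => (cnt ψ A : ℝ) - (if i = 0 then (n : ℝ) - 1 / 2 else (n : ℝ) + 1 / 2),
    fun p => p 0 ∧ ¬ p 1, layer ψ n, ?_, ?_, ?_, ?_⟩
  · intro i
    exact cs_cnt ψ _
  · intro A
    unfold layer
    rw [Finset.mem_filter]
    simp only [Finset.mem_univ, true_and, if_true, one_ne_zero, if_false, sub_pos, not_lt]
    constructor
    · intro h1
      rw [h1]
      constructor <;> linarith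
    · rintro ⟨h1, h2⟩
      have h3 : (n : ℝ) < cnt ψ A + 1 := by linarith
      have h4 : (cnt ψ A : ℝ) < n + 1 := by linarith
      have h5 : n < cnt ψ A + 1 := by exact_mod_cast h3
      have h6 : cnt ψ A < n + 1 := by exact_mod_cast h4
      omega
  · rw [hψ]
    exact layer_bad hh n
  · have h1 := layer_card ψ n
    rw [card_pts, ← Nat.centralBinom_eq_two_mul_choose] at h1
    have h2 := central n hn
    obtain ⟨c, hc⟩ : ∃ c : ℝ, c = Nat.centralBinom n := ⟨_, rfl⟩
    have h3 : (2 : ℝ) ^ (2 * n) * (layer ψ n).card = 2 ^ ((2 * n) ^ h) * c := by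
      rw [hc]
      exact_mod_cast h1
    have h4 : (16 : ℝ) ^ n ≤ 4 * n * c ^ 2 := by
      rw [hc]
      exact_mod_cast h2
    have hc0 : 0 ≤ c := by rw [hc]; exact Nat.cast_nonneg _
    have h5 : (2 : ℝ) ^ (2 * n) ≤ Real.sqrt (2 * (2 * n : ℕ)) * c := by
      have e0 : (16 : ℝ) ^ n = (2 ^ (2 * n)) ^ 2 := by
        have f1 : (16 : ℝ) = 2 ^ 4 := by norm_num
        rw [f1, ← pow_mul, ← pow_mul]
        congr 1
        ring
      have e1 : (2 : ℝ) ^ (2 * n) = Real.sqrt (16 ^ n) := by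
        rw [e0, Real.sqrt_sq (by positivity)]
      rw [e1]
      have e2 : Real.sqrt (2 * (2 * n : ℕ)) * c = Real.sqrt (4 * n * c ^ 2) := by
        have f1 : (4 : ℝ) * n * c ^ 2 = (2 * (2 * n : ℕ)) * c ^ 2 := by
          push_cast
          ring
        rw [f1, Real.sqrt_mul (by positivity) (c ^ 2), Real.sqrt_sq hc0]
      rw [e2]
      exact Real.sqrt_le_sqrt h4
    have hP : (0 : ℝ) < 2 ^ (2 * n) := by positivity
    have h6 : (2 : ℝ) ^ (2 * n) * 2 ^ ((2 * n) ^ h) ≤
        2 ^ (2 * n) * (Real.sqrt (2 * (2 * n : ℕ)) * (layer ψ n).card) := by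
      calc (2 : ℝ) ^ (2 * n) * 2 ^ ((2 * n) ^ h) ≤
            (Real.sqrt (2 * (2 * n : ℕ)) * c) * 2 ^ ((2 * n) ^ h) :=
            mul_le_mul_of_nonneg_right h5 (by positivity)
        _ = Real.sqrt (2 * (2 * n : ℕ)) * (2 ^ ((2 * n) ^ h) * c) := by ring
        _ = Real.sqrt (2 * (2 * n : ℕ)) * (2 ^ (2 * n) * (layer ψ n).card) := by rw [h3]
        _ = _ := by ring
    exact le_of_mul_le_mul_left h6 hP

end main

end Pool.Agent.H284.HJ
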