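import Pool.Agent.Run7.h284.HJ.Fib

/-!
# Families which are not good inside families with small boundary on small blocks
-/

set_option autoImplicit false

namespace Pool.Agent.H284.HJ

open Finset Function H568R2 DomAC0 Pool.Agent.H284.PS Pool.Agent.H284.VX

section emb

variable {h N m : ℕ}

/-- good families -/
def GoodH (S : Finset (Finset (Fin h → Fin N))) : Prop :=
  ∃ A ∈ S, ∃ γ : Finset (Fin N), γ.Nonempty ∧
    Disjoint A (Fintype.piFinset (fun _ : Fin h => γ)) ∧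
    A ∪ Fintype.piFinset (fun _ : Fin h => γ) ∈ S

/-- the cells of a block -/
def cellEmb {j : ℕ} (hj : j < N / m) : (Fin h → Fin m) ↪ (Fin h → Fin N) where
  toFun c := fun l => ⟨j * m + c l, by
    have h1 : (j + 1) * m ≤ N / m * m := Nat.mul_le_mul_right _ hj
    have h2 := Nat.div_mul_le_self N m
    have h3 := (c l).2
    have h4 : (j + 1) * m = j * m + m := by ring
    omega⟩
  inj' c c' hc := by
    funext l
    have h1 := congrArg Fin.val (congrFun hc l)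
    apply Fin.ext
    have h2 : j * m + (c l : ℕ) = j * m + (c' l : ℕ) := h1
    omega

theorem cellEmb_val {j : ℕ} (hj : j < N / m) (c : Fin h → Fin m) (l : Fin h) :
    ((cellEmb hj c l : Fin N) : ℕ) = j * m + c l := rfl

/-- the embedding of the positions of a block -/
def posEmb {j : ℕ} (hj : j < N / m) : Fin m ↪ Fin N where
  toFun t := ⟨j * m + t, by
    have h1 : (j + 1) * m ≤ N / m * m := Nat.mul_le_mul_right _ hj
    have h2 := Nat.div_mul_le_self N m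
    have h3 := t.2
    have h4 : (j + 1) * m = j * m + m := by ring
    omega⟩
  inj' t t' ht := by
    have h1 := congrArg Fin.val ht
    apply Fin.ext
    have h2 : j * m + (t : ℕ) = j * m + (t' : ℕ) := h1
    omega

theorem cube_map {j : ℕ} (hj : j < N / m) (γ : Finset (Fin m)) :
    Fintype.piFinset (fun _ : Fin h => γ.map (posEmb hj)) =
      (Fintype.piFinset (fun _ : Fin h => γ)).map (cellEmb (h := h) hj) := by
  ext c
  rw [Fintype.mem_piFinset, mem_map]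
  constructor
  · intro hc
    have hc' : ∀ l, ∃ t ∈ γ, posEmb hj t = c l := fun l => mem_map.1 (hc l)
    choose g hg1 hg2 using hc'
    exact ⟨g, Fintype.mem_piFinset.2 hg1, funext hg2⟩
  · rintro ⟨g, hg, rfl⟩ l
    exact mem_map.2 ⟨g l, Fintype.mem_piFinset.1 hg l, rfl⟩

/-- the part of a set outside the block together with a set inside the block -/
theorem symmDiff_map (φ : (Fin h → Fin m) ↪ (Fin h → Fin N)) (A : Finset (Fin h → Fin N))
    (t : Finset (Fin h → Fin m)) :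
    symmDiff A (t.map φ) =
      (A \ univ.map φ) ∪ (symmDiff t (univ.filter fun c => φ c ∈ A)).map φ := by
  ext x
  by_cases hx : ∃ c, φ c = x
  · obtain ⟨c, rfl⟩ := hx
    simp only [mem_symmDiff, mem_map', mem_union, mem_sdiff, mem_univ, mem_filter, true_and]
    tauto
  · have h1 : ∀ u : Finset (Fin h → Fin m), x ∉ u.map φ := by
      intro u hu
      obtain ⟨c, -, hc⟩ := mem_map.1 hu
      exact hx ⟨c, hc⟩
    simp only [mem_symmDiff, mem_union, mem_sdiff, h1]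
    tauto

/-- a family which is not good has few members in each fibre -/
lemma few {S : Finset (Finset (Fin h → Fin N))} (hc : ¬ GoodH S) {r : ℕ}
    (hr : ∀ B : Finset (Finset (Fin h → Fin m)), ¬ GoodH B → B.card ≤ r) {j : ℕ} (hj : j < N / m)
    (A : Finset (Fin h → Fin N)) :
    (univ.filter fun t : Finset (Fin h → Fin m) => symmDiff A (t.map (cellEmb hj)) ∈ S).card ≤
      r := by
  classical
  obtain ⟨φ, hφ⟩ : ∃ φ : (Fin h → Fin m) ↪ (Fin h → Fin N), φ = cellEmb hj := ⟨_, rfl⟩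
  rw [← hφ]
  obtain ⟨t0, ht0⟩ : ∃ t0 : Finset (Fin h → Fin m), t0 = univ.filter fun c => φ c ∈ A := ⟨_, rfl⟩
  have h1 : (univ.filter fun t : Finset (Fin h → Fin m) => symmDiff A (t.map φ) ∈ S).card ≤
      (univ.filter fun t : Finset (Fin h → Fin m) => (A \ univ.map φ) ∪ t.map φ ∈ S).card := by
    apply card_le_card_of_injOn (fun t => symmDiff t t0)
    · intro t ht
      have ht' := (mem_filter.1 (mem_coe.1 ht)).2
      rw [symmDiff_map, ← ht0] at ht'
      exact mem_coe.2 (mem_filter.2 ⟨mem_univ _, ht'⟩)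
    · intro t _ t' _ htt
      exact symmDiff_left_injective t0 htt
  refine h1.trans (hr _ ?_)
  rintro ⟨t, ht, γ, hγ, hdis, hun⟩
  rw [mem_filter] at ht hun
  apply hc
  refine ⟨_, ht.2, γ.map (posEmb hj), hγ.map, ?_, ?_⟩
  · rw [cube_map, disjoint_left]
    intro x hx hx'
    rw [← hφ] at hx'
    obtain ⟨c, hc1, rfl⟩ := mem_map.1 hx'
    rcases mem_union.1 hx with h2 | h2
    · exact (mem_sdiff.1 h2).2 (mem_map_of_mem _ (mem_univ _))
    · have h3 : c ∈ t := (mem_map' _).1 h2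
      exact disjoint_left.1 hdis h3 hc1
  · rw [cube_map, ← hφ, union_assoc, ← map_union]
    exact hun.2

/-- all blocks together -/
def blocks (hh : 1 ≤ h) : Fin (N / m) × (Fin h → Fin m) ↪ (Fin h → Fin N) where
  toFun p := cellEmb p.1.2 p.2
  inj' p q hpq := by
    have h2 := congrArg Fin.val (congrFun hpq ⟨0, hh⟩)
    have h2' : (p.1 : ℕ) * m + (p.2 ⟨0, hh⟩ : ℕ) = (q.1 : ℕ) * m + (q.2 ⟨0, hh⟩ : ℕ) := h2
    have h3 := (p.2 ⟨0, hh⟩).2
    have h4 := (q.2 ⟨0, hh⟩).2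
    have hm : 0 < m := by omega
    have h5 : ((p.1 : ℕ) * m + (p.2 ⟨0, hh⟩ : ℕ)) / m = p.1 := by
      rw [mul_comm, Nat.mul_add_div hm, Nat.div_eq_of_lt h3, add_zero]
    have h6 : ((q.1 : ℕ) * m + (q.2 ⟨0, hh⟩ : ℕ)) / m = q.1 := by
      rw [mul_comm, Nat.mul_add_div hm, Nat.div_eq_of_lt h4, add_zero]
    have h7 : p.1 = q.1 := Fin.ext (by rw [← h5, h2', h6])
    obtain ⟨p1, p2⟩ := p
    obtain ⟨q1, q2⟩ := q
    simp only at h7
    subst h7
    have h8 : p2 = q2 := (cellEmb p1.2).injective hpq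
    rw [h8]

lemma alg (K P f b r s : ℝ) (hK : 0 < K) (hP : 0 < P)
    (hs : K * (P * s) ≤ K * (r * f) + P * (P * b)) : s ≤ r / P * f + P * b / K := by
  have h7 : r / P * f + P * b / K = (K * (r * f) + P * (P * b)) / (K * P) := by
    field_simp
  rw [h7, le_div_iff₀ (by positivity)]
  calc s * (K * P) = K * (P * s) := by ring
    _ ≤ _ := hs

/-- **families that are not good inside families with small boundary on the blocks** -/
lemma rel_bd (hh : 1 ≤ h) (hm : 1 ≤ m) (hmn : m ≤ N) {F S : Finset (Finset (Fin h → Fin N))}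
    (hS : ¬ GoodH S) {r : ℕ}
    (hr : ∀ B : Finset (Finset (Fin h → Fin m)), ¬ GoodH B → B.card ≤ r) {b : ℝ} {n : ℕ}
    (hn : n = N / m * m ^ h) (hb : ∀ ψ : Fin n ↪ (Fin h → Fin N), (bdry F ψ : ℝ) ≤ b) :
    ((S ∩ F).card : ℝ) ≤ r / 2 ^ (m ^ h) * F.card + 2 ^ (m ^ h) * b / (N / m : ℕ) := by
  classical
  have hK1 : 1 ≤ N / m := (Nat.one_le_div_iff hm).2 hmn
  have hcY : Fintype.card (Fin h → Fin m) = m ^ h := by simp
  have hcard : Fintype.card (Fin (N / m) × (Fin h → Fin m)) = n := by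
    rw [Fintype.card_prod, hcY, Fintype.card_fin, hn]
  obtain ⟨e⟩ : Nonempty (Fin n ≃ Fin (N / m) × (Fin h → Fin m)) := by
    refine ⟨(Fintype.equivFinOfCardEq hcard).symm⟩
  have hsum : ∑ j : Fin (N / m), bdry F (cellEmb (h := h) j.2) =
      bdry F (e.toEmbedding.trans (blocks hh)) := by
    unfold bdry
    rw [Finset.sum_comm]
    apply Finset.sum_congr rfl
    intro A _
    have e1 : ∀ j : Fin (N / m), gg F (cellEmb (h := h) j.2) A =
        ∑ c : Fin h → Fin m, if ¬ (symmDiff A {cellEmb (h := h) j.2 c} ∈ F ↔ A ∈ F) then 1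
          else 0 := fun j => Finset.card_filter _ _
    simp only [e1]
    rw [← Fintype.sum_prod_type' (f := fun (j : Fin (N / m)) (c : Fin h → Fin m) =>
      if ¬ (symmDiff A {cellEmb (h := h) j.2 c} ∈ F ↔ A ∈ F) then 1 else 0)]
    rw [← Equiv.sum_comp e]
    unfold gg
    rw [Finset.card_filter]
    rfl
  have h1 : ∀ j : Fin (N / m), (2 : ℝ) ^ (m ^ h) * (S ∩ F).card ≤
      r * F.card + 2 ^ (m ^ h) * (2 ^ (m ^ h) * bdry F (cellEmb (h := h) j.2)) := by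
    intro j
    have e1 := fib F S (cellEmb (h := h) j.2) r (few hS hr j.2)
    have e2 := bad_card F (cellEmb (h := h) j.2)
    rw [hcY] at e1 e2
    have e3 : (2 : ℝ) ^ (m ^ h) * (S ∩ F).card ≤
        r * F.card + 2 ^ (m ^ h) * (bad F (cellEmb (h := h) j.2)).card := by exact_mod_cast e1
    have e4 : ((bad F (cellEmb (h := h) j.2)).card : ℝ) ≤
        2 ^ (m ^ h) * bdry F (cellEmb (h := h) j.2) := by exact_mod_cast e2
    have e5 := mul_le_mul_of_nonneg_left e4 (by positivity : (0 : ℝ) ≤ 2 ^ (m ^ h))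
    linarith
  have h2 : ∑ _j : Fin (N / m), (2 : ℝ) ^ (m ^ h) * (S ∩ F).card ≤
      ∑ j : Fin (N / m), (r * F.card + 2 ^ (m ^ h) * (2 ^ (m ^ h) *
        (bdry F (cellEmb (h := h) j.2) : ℝ))) := Finset.sum_le_sum fun j _ => h1 j
  rw [Finset.sum_const, Finset.sum_add_distrib, Finset.sum_const, ← Finset.mul_sum,
    ← Finset.mul_sum, Finset.card_univ, Fintype.card_fin, nsmul_eq_mul, nsmul_eq_mul] at h2
  have h3 : ∑ j : Fin (N / m), (bdry F (cellEmb (h := h) j.2) : ℝ) ≤ b := by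
    have e1 := hb (e.toEmbedding.trans (blocks hh))
    rw [← hsum] at e1
    push_cast at e1
    exact e1
  obtain ⟨K, hK⟩ : ∃ K : ℝ, K = ((N / m : ℕ) : ℝ) := ⟨_, rfl⟩
  have hK0 : (0 : ℝ) < K := by rw [hK]; exact_mod_cast hK1
  rw [← hK] at h2 ⊢
  obtain ⟨P, hP⟩ : ∃ P : ℝ, P = 2 ^ (m ^ h) := ⟨_, rfl⟩
  have hP0 : 0 < P := by rw [hP]; positivity
  rw [← hP] at h2 ⊢
  have h4 : P * (P * ∑ j : Fin (N / m), (bdry F (cellEmb (h := h) j.2) : ℝ)) ≤ P * (P * b) :=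
    mul_le_mul_of_nonneg_left (mul_le_mul_of_nonneg_left h3 hP0.le) hP0.le
  have h5 : K * (P * (S ∩ F).card) ≤ K * (r * F.card) + P * (P * b) :=
    h2.trans (add_le_add le_rfl h4)
  exact alg K P F.card b r _ hK0 hP0 h5

end emb

section ac

variable {h N : ℕ}

/-- `F` is decided by an arbitrary function of `r` threshold gates with arbitrary real weights on
top of a circuit with at most `s` gates; the inputs of the threshold gates have depth at most `d` -/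
def Dec (d s r : ℕ) (F : Finset (Finset (Fin h → Fin N))) : Prop :=
  ∃ (C : Circuit (Fin h → Fin N)) (V : Fin r → Finset ((Fin h → Fin N) ⊕ Fin C.size))
    (w : Fin r → (Fin h → Fin N) ⊕ Fin C.size → ℝ) (θ : Fin r → ℝ) (R : (Fin r → Bool) → Prop),
    C.size ≤ s ∧ (∀ k, ∀ u ∈ V k, C.nodeDepth u ≤ d) ∧
    ∀ A, A ∈ F ↔ R (fun k => thr C (V k) (w k) (θ k) (ind A))

lemma bdry_dec {d s r n : ℕ} {F : Finset (Finset (Fin h → Fin N))} (hF : Dec d s r F)
    (hn : 0 < n) {β : ℝ}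
    (hβ : ∀ (C : Circuit (Fin h → Fin N)) (σ : (Fin n → Bool) → ((Fin h → Fin N) → Bool)),
      Single σ → C.size ≤ s → ∀ (V : Finset ((Fin h → Fin N) ⊕ Fin C.size))
      (w : (Fin h → Fin N) ⊕ Fin C.size → ℝ) (θ : ℝ), (∀ u ∈ V, C.nodeDepth u ≤ d) →
      Ex uw (fun z : Fin n → Bool => (SS (fun x => thr C V w θ (σ x)) z : ℝ)) ≤ β)
    (ψ : Fin n ↪ (Fin h → Fin N)) : (bdry F ψ : ℝ) ≤ 2 ^ (N ^ h) * (r * β) := by
  classical
  obtain ⟨C, V, w, θ, R, hC, hV, hR⟩ := hF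
  rw [bdry_eq]
  have h1 : ∀ A : Finset (Fin h → Fin N), Ex uw (fun z : Fin n → Bool =>
      (SS (fun z : Fin n → Bool => decide (symmDiff A (zset ψ z) ∈ F)) z : ℝ)) ≤ r * β := by
    intro A
    have e1 : ∀ z : Fin n → Bool,
        (SS (fun z : Fin n → Bool => decide (symmDiff A (zset ψ z) ∈ F)) z : ℝ) ≤
          ∑ k : Fin r, (SS (fun z : Fin n → Bool =>
            thr C (V k) (w k) (θ k) (ind (symmDiff A (zset ψ z)))) z : ℝ) := by
      intro z
      exact_mod_cast SS_comb (fun k z => thr C (V k) (w k) (θ k) (ind (symmDiff A (zset ψ z))))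
        (fun z : Fin n → Bool => decide (symmDiff A (zset ψ z) ∈ F)) (fun x y hxy => by
          rw [decide_eq_decide, hR, hR]
          have : (fun k => thr C (V k) (w k) (θ k) (ind (symmDiff A (zset ψ x)))) =
            fun k => thr C (V k) (w k) (θ k) (ind (symmDiff A (zset ψ y))) := funext hxy
          rw [this]) z
    refine (Ex_mono uw_nonneg e1).trans ?_
    rw [Ex_sum]
    have e2 : ∀ k : Fin r, Ex uw (fun z : Fin n → Bool => (SS (fun z : Fin n → Bool =>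
        thr C (V k) (w k) (θ k) (ind (symmDiff A (zset ψ z)))) z : ℝ)) ≤ β :=
      fun k => hβ C (fun z => ind (symmDiff A (zset ψ z))) (single ψ hn A) hC (V k) (w k) (θ k)
        (hV k)
    refine (Finset.sum_le_sum fun k _ => e2 k).trans (le_of_eq ?_)
    rw [Finset.sum_const, Finset.card_univ, Fintype.card_fin, nsmul_eq_mul]
  refine (Finset.sum_le_sum fun A _ => h1 A).trans (le_of_eq ?_)
  rw [Finset.sum_const, Finset.card_univ, nsmul_eq_mul]
  congr 1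
  rw [Fintype.card_finset, Fintype.card_pi, prod_const, card_univ, Fintype.card_fin,
    Fintype.card_fin]
  push_cast
  rfl

end ac

open Filter in
/-- **The relative form inside families decided by few threshold gates on top of polynomial-size
circuits of bounded depth.** -/
theorem main (h : ℕ) (hh : 1 ≤ h) (θ' : ℝ) (hθ0 : 0 ≤ θ') {m : ℕ} (hm : 1 ≤ m)
    (hcrit : ∀ S : Finset (Finset (Fin h → Fin m)), θ' * (2 : ℝ) ^ (m ^ h) < S.card → GoodH S)
    (d a : ℕ) :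
    ∃ δ : ℝ, 0 < δ ∧ ∀ᶠ N : ℕ in atTop, ∀ (r : ℕ) (F S : Finset (Finset (Fin h → Fin N))),
      (r : ℝ) ≤ (N : ℝ) ^ δ → Dec d (N ^ a) r F → ¬ GoodH S →
      ((S ∩ F).card : ℝ) ≤ θ' * F.card + (N : ℝ) ^ (-δ) * 2 ^ (N ^ h) := by
  classical
  obtain ⟨δ₀, hδ₀, hav⟩ := thr_avg d (2 * a)
  obtain ⟨δ, hδ⟩ : ∃ δ : ℝ, δ = δ₀ / 4 := ⟨_, rfl⟩
  have hδ0 : 0 < δ := by rw [hδ]; positivity
  refine ⟨δ, hδ0, ?_⟩
  obtain ⟨y, hy⟩ : ∃ y : ℕ, y = m ^ h := ⟨_, rfl⟩
  have hy1 : 1 ≤ y := by rw [hy]; exact Nat.one_le_pow _ _ hm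
  obtain ⟨n₀, hn₀⟩ := Filter.eventually_atTop.1 hav
  have t1 : Tendsto (fun n : ℕ => (n : ℝ) ^ δ) atTop atTop :=
    (tendsto_rpow_atTop hδ0).comp tendsto_natCast_atTop_atTop
  filter_upwards [t1.eventually_ge_atTop (2 ^ y * y * (2 * m : ℝ) ^ δ₀),
    eventually_ge_atTop (m * (n₀ + 2 * m + 1))] with N hN1 hN2
  intro r F S hr hF hS
  obtain ⟨K, hK⟩ : ∃ K : ℕ, K = N / m := ⟨_, rfl⟩
  have hKn : n₀ + 2 * m + 1 ≤ K := by
    rw [hK, Nat.le_div_iff_mul_le (by omega), mul_comm]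
    exact hN2
  have hmn : m ≤ N := by
    refine le_trans ?_ hN2
    exact Nat.le_mul_of_pos_right _ (by omega)
  have hNK : N ≤ 2 * m * K := by
    have e1 := Nat.div_add_mod N m
    have e2 := Nat.mod_lt N (show 0 < m by omega)
    rw [← hK] at e1
    have e3 : m * 1 ≤ m * K := Nat.mul_le_mul_left _ (by omega)
    have e4 : 2 * m * K = m * K + m * K := by ring
    omega
  obtain ⟨n, hn⟩ : ∃ n : ℕ, n = N / m * m ^ h := ⟨_, rfl⟩
  have hnK : n = K * y := by rw [hn, hK, hy]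
  have hKn2 : K ≤ n := by
    rw [hnK]
    exact Nat.le_mul_of_pos_right _ hy1
  have hnn : n₀ ≤ n := by omega
  have hNn : N ≤ n ^ 2 := by
    calc N ≤ 2 * m * K := hNK
      _ ≤ n * n := Nat.mul_le_mul (by omega) hKn2
      _ = n ^ 2 := by ring
  have hsz : N ^ a ≤ n ^ (2 * a) := by
    rw [pow_mul]
    exact Nat.pow_le_pow_left hNn a
  have hb : ∀ ψ : Fin n ↪ (Fin h → Fin N),
      (bdry F ψ : ℝ) ≤ 2 ^ (N ^ h) * (r * (n : ℝ) ^ (1 - δ₀)) := by
    refine bdry_dec hF (by omega) ?_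
    intro C σ hσ hC V w θ hV
    exact hn₀ n hnn _ C σ hσ (hC.trans hsz) V w θ hV
  have hr' : ∀ B : Finset (Finset (Fin h → Fin m)), ¬ GoodH B → B.card ≤ ⌊θ' * 2 ^ (m ^ h)⌋₊ := by
    intro B hB
    apply Nat.le_floor
    by_contra hcon
    push Not at hcon
    exact hB (hcrit B hcon)
  have h1 := rel_bd hh hm hmn hS hr' hn hb
  have h2 : ((⌊θ' * 2 ^ (m ^ h)⌋₊ : ℕ) : ℝ) / 2 ^ (m ^ h) ≤ θ' := by
    rw [div_le_iff₀ (by positivity)]
    exact Nat.floor_le (by positivity)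
  have h3 := mul_le_mul_of_nonneg_right h2 (Nat.cast_nonneg F.card : (0 : ℝ) ≤ F.card)
  have hN1' : 1 ≤ N := by omega
  have hNr : (1 : ℝ) ≤ N := by exact_mod_cast hN1'
  have hN0 : (0 : ℝ) < N := by linarith
  have hK1 : (1 : ℝ) ≤ K := by
    have : 1 ≤ K := by omega
    exact_mod_cast this
  have hK0 : (0 : ℝ) < K := by linarith
  have hy0 : (0 : ℝ) < y := by exact_mod_cast hy1
  have hm0 : (0 : ℝ) < m := by exact_mod_cast hm
  have hn1 : (0 : ℝ) < n := by rw [hnK]; push_cast; positivity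
  have h4 : 2 ^ (m ^ h) * (2 ^ (N ^ h) * (r * (n : ℝ) ^ (1 - δ₀))) / ((N / m : ℕ) : ℝ) ≤
      (N : ℝ) ^ (-δ) * 2 ^ (N ^ h) := by
    rw [← hK, ← hy]
    have e1 : (n : ℝ) ^ (1 - δ₀) = n * (n : ℝ) ^ (-δ₀) := by
      rw [sub_eq_add_neg, Real.rpow_add hn1, Real.rpow_one]
    have e2 : (n : ℝ) = K * y := by rw [hnK]; push_cast; ring
    have e3 : (n : ℝ) ^ (-δ₀) ≤ (2 * m : ℝ) ^ δ₀ * (N : ℝ) ^ (-δ₀) := by
      have f1 : (N : ℝ) / (2 * m) ≤ n := by
        rw [div_le_iff₀ (by positivity)]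
        have f2 : (N : ℝ) ≤ 2 * m * K := by exact_mod_cast hNK
        have f3 : (K : ℝ) ≤ n := by exact_mod_cast hKn2
        nlinarith
      have f2 : (n : ℝ) ^ (-δ₀) ≤ ((N : ℝ) / (2 * m)) ^ (-δ₀) :=
        Real.rpow_le_rpow_of_nonpos (by positivity) f1 (by linarith)
      refine f2.trans (le_of_eq ?_)
      rw [Real.div_rpow hN0.le (by positivity), Real.rpow_neg (by positivity : (0 : ℝ) ≤ 2 * m)]
      rw [div_inv_eq_mul, mul_comm]
    have e4 : (N : ℝ) ^ δ * ((N : ℝ) ^ δ * (N : ℝ) ^ (-δ₀)) = (N : ℝ) ^ (-δ - δ) := by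
      rw [← Real.rpow_add hN0, ← Real.rpow_add hN0]
      congr 1
      rw [hδ]
      ring
    have e5 : (N : ℝ) ^ (-δ - δ) * (N : ℝ) ^ δ = (N : ℝ) ^ (-δ) := by
      rw [← Real.rpow_add hN0]
      congr 1
      ring
    have e6 : (2 : ℝ) ^ y * (2 ^ (N ^ h) * (r * (n : ℝ) ^ (1 - δ₀))) / K =
        2 ^ (N ^ h) * ((2 : ℝ) ^ y * y * (r * (n : ℝ) ^ (-δ₀))) := by
      rw [e1]
      nth_rewrite 1 [e2]
      field_simp
    rw [e6]
    have e7 : (2 : ℝ) ^ y * y * (r * (n : ℝ) ^ (-δ₀)) ≤ (N : ℝ) ^ (-δ) := by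
      have f1 : (r : ℝ) * (n : ℝ) ^ (-δ₀) ≤
          (N : ℝ) ^ δ * ((2 * m : ℝ) ^ δ₀ * (N : ℝ) ^ (-δ₀)) :=
        mul_le_mul hr e3 (by positivity) (by positivity)
      calc (2 : ℝ) ^ y * y * (r * (n : ℝ) ^ (-δ₀)) ≤
            2 ^ y * y * ((N : ℝ) ^ δ * ((2 * m : ℝ) ^ δ₀ * (N : ℝ) ^ (-δ₀))) :=
            mul_le_mul_of_nonneg_left f1 (by positivity)
        _ = (2 ^ y * y * (2 * m : ℝ) ^ δ₀) * ((N : ℝ) ^ δ * (N : ℝ) ^ (-δ₀)) := by ring
        _ ≤ (N : ℝ) ^ δ * ((N : ℝ) ^ δ * (N : ℝ) ^ (-δ₀)) :=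
            mul_le_mul_of_nonneg_right hN1 (by positivity)
        _ = (N : ℝ) ^ (-δ - δ) := e4
        _ ≤ (N : ℝ) ^ (-δ) := Real.rpow_le_rpow_of_exponent_le hNr (by linarith)
    calc (2 : ℝ) ^ (N ^ h) * ((2 : ℝ) ^ y * y * (r * (n : ℝ) ^ (-δ₀))) ≤
          2 ^ (N ^ h) * (N : ℝ) ^ (-δ) := mul_le_mul_of_nonneg_left e7 (by positivity)
      _ = (N : ℝ) ^ (-δ) * 2 ^ (N ^ h) := by ring
  linarith

end Pool.Agent.H284.HJ
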