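import Pool.Agent.Run7.h284.HJ.FormMain
import Pool.Agent.Run7.h284.VX.Cs

/-!
# Families decided by functions whose differences have constant sign
-/

set_option autoImplicit false

namespace Pool.Agent.H284.HJ

open Finset Function H568R2 Pool.Agent.H284.PS Pool.Agent.H284.VX

/-- the difference of `h` in direction `e` -/
def diff {E : Type} [DecidableEq E] (e : E) (h : Finset E → ℝ) (A : Finset E) : ℝ :=
  h (insert e A) - h (A.erase e)

/-- all differences of order `k` have constant sign -/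
def CS {E : Type} [DecidableEq E] : ℕ → (Finset E → ℝ) → Prop
  | 0, h => (∀ A, 0 ≤ h A) ∨ (∀ A, h A ≤ 0)
  | k + 1, h => ∀ e, CS k (diff e h)

section sub

variable {X : Type} [Fintype X] [DecidableEq X] {n : ℕ}

omit [Fintype X] in
lemma mem_zset (ψ : Fin n ↪ X) (z : Fin n → Bool) (l : Fin n) : ψ l ∈ zset ψ z ↔ z l = true := by
  unfold zset
  rw [Finset.mem_map', Finset.mem_filter]
  simp

omit [Fintype X] in
lemma symm_update (ψ : Fin n ↪ X) (A : Finset X) (z : Fin n → Bool) (i : Fin n) (b : Bool) :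
    symmDiff A (zset ψ (Function.update z i b)) =
      if (ψ i ∈ A ↔ b = true) then (symmDiff A (zset ψ z)).erase (ψ i)
      else insert (ψ i) (symmDiff A (zset ψ z)) := by
  have key : ∀ x, x ≠ ψ i → (x ∈ zset ψ (Function.update z i b) ↔ x ∈ zset ψ z) := by
    intro x hx
    by_cases hl : ∃ l, ψ l = x
    · obtain ⟨l, rfl⟩ := hl
      rw [mem_zset, mem_zset, Function.update_of_ne]
      rintro rfl
      exact hx rfl
    · have h1 : ∀ z : Fin n → Bool, x ∉ zset ψ z := by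
        intro z hz
        obtain ⟨c, -, hc⟩ := Finset.mem_map.1 hz
        exact hl ⟨c, hc⟩
      simp [h1]
  have key2 : ψ i ∈ zset ψ (Function.update z i b) ↔ b = true := by
    rw [mem_zset, Function.update_self]
  ext x
  by_cases hx : x = ψ i
  · subst hx
    rw [Finset.mem_symmDiff, key2]
    split_ifs with h
    · simp only [Finset.mem_erase, ne_eq, not_true_eq_false, false_and, iff_false]
      tauto
    · simp only [Finset.mem_insert, true_or, iff_true]
      tauto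
  · rw [Finset.mem_symmDiff, key x hx]
    split_ifs with h
    · rw [Finset.mem_erase, Finset.mem_symmDiff]
      tauto
    · rw [Finset.mem_insert, Finset.mem_symmDiff]
      tauto

omit [Fintype X] in
/-- restrictions of functions with differences of constant sign -/
lemma wc_of (ψ : Fin n ↪ X) (A : Finset X) : ∀ (k : ℕ) (h : Finset X → ℝ) (c : ℝ), CS (k + 1) h →
    WC k (fun z : Fin n → Bool => c * h (symmDiff A (zset ψ z))) := by
  have hD : ∀ (h : Finset X → ℝ) (c : ℝ) (i : Fin n), ∃ c' : ℝ,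
      Dv i (fun z : Fin n → Bool => c * h (symmDiff A (zset ψ z))) =
        fun z => c' * diff (ψ i) h (symmDiff A (zset ψ z)) := by
    intro h c i
    by_cases hi : ψ i ∈ A
    · refine ⟨-c, ?_⟩
      funext z
      show c * h (symmDiff A (zset ψ (Function.update z i true))) -
        c * h (symmDiff A (zset ψ (Function.update z i false))) =
        -c * (h (insert (ψ i) (symmDiff A (zset ψ z))) -
          h ((symmDiff A (zset ψ z)).erase (ψ i)))
      rw [symm_update, symm_update]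
      simp only [hi, true_iff, if_true, Bool.false_eq_true, if_false]
      ring
    · refine ⟨c, ?_⟩
      funext z
      show c * h (symmDiff A (zset ψ (Function.update z i true))) -
        c * h (symmDiff A (zset ψ (Function.update z i false))) =
        c * (h (insert (ψ i) (symmDiff A (zset ψ z))) -
          h ((symmDiff A (zset ψ z)).erase (ψ i)))
      rw [symm_update, symm_update]
      simp only [hi, false_iff, not_true_eq_false, if_false, Bool.false_eq_true,
        not_false_eq_true, if_true]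
      ring
  intro k
  induction k with
  | zero =>
    intro h c hh i
    obtain ⟨c', hc'⟩ := hD h c i
    rw [hc']
    rcases hh (ψ i) with h1 | h1 <;> rcases le_total 0 c' with h2 | h2
    · exact Or.inl fun z => mul_nonneg h2 (h1 _)
    · exact Or.inr fun z => mul_nonpos_of_nonpos_of_nonneg h2 (h1 _)
    · exact Or.inr fun z => mul_nonpos_of_nonneg_of_nonpos h2 (h1 _)
    · exact Or.inl fun z => mul_nonneg_of_nonpos_of_nonpos h2 (h1 _)
  | succ k ih =>
    intro h c hh i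
    obtain ⟨c', hc'⟩ := hD h c i
    rw [hc']
    exact ih (diff (ψ i) h) c' (hh (ψ i))

/-- both sides of the boundary are equal -/
lemma bdry_two (F : Finset (Finset X)) (ψ : Fin n ↪ X) : bdry F ψ = 2 * fbd F ψ := by
  classical
  unfold bdry fbd gg
  simp only [Finset.card_filter]
  have h1 : ∀ i : Fin n, (∑ A : Finset X, if ¬ (symmDiff A {ψ i} ∈ F ↔ A ∈ F) then 1 else 0) =
      2 * ∑ A ∈ F, if symmDiff A {ψ i} ∉ F then 1 else 0 := by
    intro i
    have e1 : ∀ A : Finset X, (if ¬ (symmDiff A {ψ i} ∈ F ↔ A ∈ F) then 1 else 0) =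
        (if A ∈ F then (if symmDiff A {ψ i} ∉ F then 1 else 0) else 0) +
        (if symmDiff A {ψ i} ∈ F then (if A ∉ F then 1 else 0) else 0) := by
      intro A
      by_cases h1 : A ∈ F <;> by_cases h2 : symmDiff A {ψ i} ∈ F <;> simp [h1, h2]
    simp only [e1]
    rw [Finset.sum_add_distrib, two_mul]
    congr 1
    · rw [← Finset.sum_filter, Finset.filter_mem_eq_inter, Finset.univ_inter]
    · have e2 := sum_symm {ψ i} (fun A : Finset X =>
        if A ∈ F then (if symmDiff A {ψ i} ∉ F then 1 else 0) else 0)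
      rw [← Finset.sum_filter (s := univ) (p := fun A : Finset X => A ∈ F),
        Finset.filter_mem_eq_inter, Finset.univ_inter] at e2
      rw [← e2]
      apply Finset.sum_congr rfl
      intro A _
      rw [show symmDiff (symmDiff A {ψ i}) {ψ i} = A from symm_invol {ψ i} A]
  calc (∑ A : Finset X, ∑ i : Fin n, if ¬ (symmDiff A {ψ i} ∈ F ↔ A ∈ F) then 1 else 0) =
      ∑ i : Fin n, ∑ A : Finset X, if ¬ (symmDiff A {ψ i} ∈ F ↔ A ∈ F) then 1 else 0 :=
        Finset.sum_comm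
    _ = ∑ i : Fin n, 2 * ∑ A ∈ F, (if symmDiff A {ψ i} ∉ F then 1 else 0) :=
        Finset.sum_congr rfl fun i _ => h1 i
    _ = 2 * ∑ i : Fin n, ∑ A ∈ F, (if symmDiff A {ψ i} ∉ F then 1 else 0) :=
        (Finset.mul_sum _ _ _).symm
    _ = 2 * ∑ A ∈ F, ∑ i : Fin n, (if symmDiff A {ψ i} ∉ F then 1 else 0) := by
        rw [Finset.sum_comm]

/-- the boundary of a family decided by functions whose differences have constant sign -/
lemma fbd_signs {F : Finset (Finset X)} {k r : ℕ} (hk : 1 ≤ k) (hn : 0 < n)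
    (h : Fin r → Finset X → ℝ) (R : (Fin r → Prop) → Prop)
    (hh : ∀ i, ∃ j, 1 ≤ j ∧ j ≤ k ∧ CS j (h i)) (hF : ∀ A, A ∈ F ↔ R fun i => 0 < h i A)
    (ψ : Fin n ↪ X) :
    (fbd F ψ : ℝ) ≤ r * (n : ℝ) ^ rr k * 2 ^ Fintype.card X := by
  classical
  have h2 : (2 : ℝ) * fbd F ψ = bdry F ψ := by
    rw [bdry_two]
    push_cast
    rfl
  have hn1 : (1 : ℝ) ≤ n := by exact_mod_cast hn
  have h3 : (bdry F ψ : ℝ) ≤ 2 ^ Fintype.card X * (r * (2 * (n : ℝ) ^ rr k)) := by
    rw [bdry_eq]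
    have e1 : ∀ A : Finset X, Ex uw (fun z : Fin n → Bool =>
        (SS (fun z : Fin n → Bool => decide (symmDiff A (zset ψ z) ∈ F)) z : ℝ)) ≤
          r * (2 * (n : ℝ) ^ rr k) := by
      intro A
      have f1 : ∀ z : Fin n → Bool,
          (SS (fun z : Fin n → Bool => decide (symmDiff A (zset ψ z) ∈ F)) z : ℝ) ≤
            ∑ i : Fin r, (SS (fun z : Fin n → Bool =>
              decide (0 < 1 * h i (symmDiff A (zset ψ z)))) z : ℝ) := by
        intro z
        exact_mod_cast SS_comb (fun i (z : Fin n → Bool) =>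
          decide (0 < 1 * h i (symmDiff A (zset ψ z))))
          (fun z : Fin n → Bool => decide (symmDiff A (zset ψ z) ∈ F)) (fun x y hxy => by
            rw [decide_eq_decide, hF, hF]
            have : (fun i => 0 < h i (symmDiff A (zset ψ x))) =
              fun i => 0 < h i (symmDiff A (zset ψ y)) := by
              funext i
              have f2 := hxy i
              rw [decide_eq_decide, one_mul, one_mul] at f2
              exact propext f2
            rw [this]) z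
      refine (Ex_mono uw_nonneg f1).trans ?_
      rw [Ex_sum]
      have f2 : ∀ i : Fin r, Ex uw (fun z : Fin n → Bool => (SS (fun z : Fin n → Bool =>
          decide (0 < 1 * h i (symmDiff A (zset ψ z)))) z : ℝ)) ≤ 2 * (n : ℝ) ^ rr k := by
        intro i
        obtain ⟨j, hj1, hj2, hj3⟩ := hh i
        obtain ⟨t, rfl⟩ : ∃ t, j = t + 1 := ⟨j - 1, by omega⟩
        have f3 := cs_avg t _ (wc_of ψ A t (h i) 1 hj3)
        rw [Fintype.card_fin] at f3
        refine f3.trans ((aa_le n (t + 1)).trans ?_)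
        apply mul_le_mul_of_nonneg_left _ (by norm_num)
        apply Real.rpow_le_rpow_of_exponent_le hn1
        unfold rr
        have : (1 / 2 : ℝ) ^ k ≤ (1 / 2 : ℝ) ^ (t + 1) :=
          pow_le_pow_of_le_one (by norm_num) (by norm_num) hj2
        linarith
      refine (Finset.sum_le_sum fun i _ => f2 i).trans (le_of_eq ?_)
      rw [Finset.sum_const, Finset.card_univ, Fintype.card_fin, nsmul_eq_mul]
    refine (Finset.sum_le_sum fun A _ => e1 A).trans (le_of_eq ?_)
    rw [Finset.sum_const, Finset.card_univ, nsmul_eq_mul, Fintype.card_finset]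
    push_cast
    rfl
  linarith

end sub

section main

variable {h N : ℕ}

/-- **Families decided by such functions which are not good.** -/
theorem signs_small (hh : 1 ≤ h) (hN : 1 ≤ N) {F : Finset (Finset (Fin h → Fin N))} {k r : ℕ}
    (hk : 1 ≤ k) (f : Fin r → Finset (Fin h → Fin N) → ℝ) (R : (Fin r → Prop) → Prop)
    (hf : ∀ i, ∃ j, 1 ≤ j ∧ j ≤ k ∧ CS j (f i)) (hF : ∀ A, A ∈ F ↔ R fun i => 0 < f i A)
    (hc : ¬ GoodH F) : (F.card : ℝ) ≤ r * (N : ℝ) ^ (-(1 / 2 : ℝ) ^ k) * 2 ^ (N ^ h) := by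
  have h1 := fbd_signs hk hN f R hf hF (diag (N := N) hh)
  rw [card_pts] at h1
  have h2 : fbd F (diag (N := N) hh) = N * F.card := by
    unfold fbd
    have e1 : ∀ A ∈ F, (univ.filter fun i : Fin N => symmDiff A {diag (N := N) hh i} ∉ F).card =
        N := by
      intro A hA
      rw [Finset.filter_true_of_mem, Finset.card_univ, Fintype.card_fin]
      intro i _
      exact leave_diag hc hA i
    rw [Finset.sum_congr rfl e1, Finset.sum_const, smul_eq_mul, mul_comm]
  rw [h2] at h1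
  push_cast at h1
  have hN0 : (0 : ℝ) < N := by exact_mod_cast hN
  have h3 : (N : ℝ) ^ rr k = N * (N : ℝ) ^ (-(1 / 2 : ℝ) ^ k) := by
    unfold rr
    rw [sub_eq_add_neg, Real.rpow_add hN0, Real.rpow_one]
  rw [h3] at h1
  have h4 : (N : ℝ) * F.card ≤ N * (r * (N : ℝ) ^ (-(1 / 2 : ℝ) ^ k) * 2 ^ (N ^ h)) := by
    calc (N : ℝ) * F.card ≤ r * (N * (N : ℝ) ^ (-(1 / 2 : ℝ) ^ k)) * 2 ^ (N ^ h) := h1
      _ = _ := by ring
  exact le_of_mul_le_mul_left h4 hN0

/-- one value of `m` -/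
lemma rel_gen' (hh : 1 ≤ h) {m : ℕ} (hm : 1 ≤ m) (hmn : m ≤ N)
    {F S : Finset (Finset (Fin h → Fin N))} (hS : ¬ GoodH S) {r : ℕ}
    (hr : ∀ B : Finset (Finset (Fin h → Fin m)), ¬ GoodH B → B.card ≤ r) {n : ℕ} {b : ℝ}
    (hn : n = N / m * m ^ h) (hb : ∀ ψ : Fin n ↪ (Fin h → Fin N), (fbd F ψ : ℝ) ≤ b) :
    ((S ∩ F).card : ℝ) ≤ r / 2 ^ (m ^ h) * F.card + b / (N / m : ℕ) := by
  classical
  have hK1 : 1 ≤ N / m := (Nat.one_le_div_iff hm).2 hmn
  have hcY : Fintype.card (Fin h → Fin m) = m ^ h := by simp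
  have hcard : Fintype.card (Fin (N / m) × (Fin h → Fin m)) = n := by
    rw [Fintype.card_prod, hcY, Fintype.card_fin, hn]
  obtain ⟨e⟩ : Nonempty (Fin n ≃ Fin (N / m) × (Fin h → Fin m)) := by
    refine ⟨(Fintype.equivFinOfCardEq hcard).symm⟩
  obtain ⟨ψ, hψ⟩ : ∃ ψ : Fin n ↪ (Fin h → Fin N), ψ = e.toEmbedding.trans (blocks hh) :=
    ⟨_, rfl⟩
  have hsum : ∑ j : Fin (N / m), fbd F (cellEmb (h := h) j.2) = fbd F ψ := by
    rw [hψ]
    unfold fbd
    rw [Finset.sum_comm]
    apply Finset.sum_congr rfl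
    intro A _
    simp only [Finset.card_filter]
    rw [← Fintype.sum_prod_type' (f := fun (j : Fin (N / m)) (c : Fin h → Fin m) =>
      if symmDiff A {cellEmb (h := h) j.2 c} ∉ F then 1 else 0)]
    rw [← Equiv.sum_comp e]
    rfl
  have h1 : ∀ j : Fin (N / m), (2 : ℝ) ^ (m ^ h) * (S ∩ F).card ≤
      r * F.card + 2 ^ (m ^ h) * fbd F (cellEmb (h := h) j.2) := by
    intro j
    have e1 := fib2 F S (cellEmb (h := h) j.2) r (few hS hr j.2)
    rw [hcY] at e1
    exact_mod_cast e1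
  have h2 : ∑ _j : Fin (N / m), (2 : ℝ) ^ (m ^ h) * (S ∩ F).card ≤
      ∑ j : Fin (N / m), (r * F.card + 2 ^ (m ^ h) *
        (fbd F (cellEmb (h := h) j.2) : ℝ)) := Finset.sum_le_sum fun j _ => h1 j
  rw [Finset.sum_const, Finset.sum_add_distrib, Finset.sum_const, ← Finset.mul_sum,
    Finset.card_univ, Fintype.card_fin, nsmul_eq_mul, nsmul_eq_mul] at h2
  have h3 : ∑ j : Fin (N / m), (fbd F (cellEmb (h := h) j.2) : ℝ) = fbd F ψ := by
    exact_mod_cast hsum
  rw [h3] at h2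
  have h4 : (2 : ℝ) ^ (m ^ h) * (fbd F ψ : ℝ) ≤ 2 ^ (m ^ h) * b :=
    mul_le_mul_of_nonneg_left (hb ψ) (by positivity)
  obtain ⟨K, hK⟩ : ∃ K : ℝ, K = ((N / m : ℕ) : ℝ) := ⟨_, rfl⟩
  have hK0 : 0 < K := by rw [hK]; exact_mod_cast hK1
  rw [← hK] at h2 ⊢
  exact alg2 (r := (r : ℝ)) hK0 (by positivity : (0 : ℝ) < 2 ^ (m ^ h))
    (h2.trans (add_le_add le_rfl h4))

/-- **The relative form.** -/
theorem signs_main (h : ℕ) (hh : 1 ≤ h) (θ' : ℝ) (hθ0 : 0 ≤ θ') {m : ℕ} (hm : 1 ≤ m)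
    (hcrit : ∀ S : Finset (Finset (Fin h → Fin m)), θ' * (2 : ℝ) ^ (m ^ h) < S.card → GoodH S) :
    ∀ N k r : ℕ, 1 ≤ N → 1 ≤ k → 1 ≤ r → ∀ (f : Fin r → Finset (Fin h → Fin N) → ℝ)
      (R : (Fin r → Prop) → Prop) (F S : Finset (Finset (Fin h → Fin N))),
      (∀ i, ∃ j, 1 ≤ j ∧ j ≤ k ∧ CS j (f i)) → (∀ A, A ∈ F ↔ R fun i => 0 < f i A) →
      ¬ GoodH S → ((S ∩ F).card : ℝ) ≤ θ' * F.card +
        (m + 2 * m * m ^ h) * (r * (N : ℝ) ^ (-(1 / 2 : ℝ) ^ k)) * 2 ^ (N ^ h) := by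
  classical
  intro N k r hN hk hr f R F S hf hF hS
  have hm0 : (1 : ℝ) ≤ m := by exact_mod_cast hm
  have hNr : (1 : ℝ) ≤ N := by exact_mod_cast hN
  have hN0 : (0 : ℝ) < N := by linarith
  have hr0 : (1 : ℝ) ≤ r := by exact_mod_cast hr
  have hθF : 0 ≤ θ' * F.card := by positivity
  obtain ⟨β, hβ⟩ : ∃ β : ℝ, β = (1 / 2 : ℝ) ^ k := ⟨_, rfl⟩
  have hβ0 : 0 < β := by rw [hβ]; positivity
  have hβ1 : β ≤ 1 := by rw [hβ]; exact pow_le_one₀ (by norm_num) (by norm_num)
  rw [← hβ]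
  rcases le_or_gt m N with hmn | hnm
  · have hr' : ∀ B : Finset (Finset (Fin h → Fin m)), ¬ GoodH B →
        B.card ≤ ⌊θ' * 2 ^ (m ^ h)⌋₊ := by
      intro B hB
      apply Nat.le_floor
      by_contra hcon
      push Not at hcon
      exact hB (hcrit B hcon)
    obtain ⟨n, hn⟩ : ∃ n : ℕ, n = N / m * m ^ h := ⟨_, rfl⟩
    obtain ⟨K, hK⟩ : ∃ K : ℕ, K = N / m := ⟨_, rfl⟩
    have hK1 : 1 ≤ K := by rw [hK]; exact (Nat.one_le_div_iff hm).2 hmn
    have hn0 : 0 < n := by
      rw [hn, ← hK]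
      exact Nat.mul_pos hK1 (Nat.pow_pos hm)
    have h1 := rel_gen' hh hm hmn hS hr' hn (fun ψ => fbd_signs hk hn0 f R hf hF ψ)
    rw [card_pts] at h1
    have h2 : ((⌊θ' * 2 ^ (m ^ h)⌋₊ : ℕ) : ℝ) / 2 ^ (m ^ h) ≤ θ' := by
      rw [div_le_iff₀ (by positivity)]
      exact Nat.floor_le (by positivity)
    have h3 := mul_le_mul_of_nonneg_right h2 (Nat.cast_nonneg F.card : (0 : ℝ) ≤ F.card)
    have hNK : N ≤ 2 * m * K := by
      have e1 := Nat.div_add_mod N m
      have e2 := Nat.mod_lt N (show 0 < m by omega)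
      rw [← hK] at e1
      have e3 : m * 1 ≤ m * K := Nat.mul_le_mul_left _ (by omega)
      have e4 : 2 * m * K = m * K + m * K := by ring
      omega
    rw [← hK] at h1
    have hK0 : (0 : ℝ) < K := by exact_mod_cast hK1
    have hNK' : (N : ℝ) ≤ 2 * m * K := by exact_mod_cast hNK
    have hn' : (n : ℝ) = K * m ^ h := by rw [hn, hK]; push_cast; ring
    have hn1 : (0 : ℝ) < n := by exact_mod_cast hn0
    have h4 : (n : ℝ) ^ rr k / K ≤ 2 * m * m ^ h * (N : ℝ) ^ (-β) := by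
      have e1 : (n : ℝ) ^ rr k = n * (n : ℝ) ^ (-β) := by
        unfold rr
        rw [← hβ, sub_eq_add_neg, Real.rpow_add hn1, Real.rpow_one]
      have e2 : (n : ℝ) ^ rr k / K = m ^ h * (n : ℝ) ^ (-β) := by
        rw [e1]
        nth_rewrite 1 [hn']
        field_simp
      rw [e2]
      have e3 : (n : ℝ) ^ (-β) ≤ 2 * m * (N : ℝ) ^ (-β) := by
        have f1 : (N : ℝ) / (2 * m) ≤ n := by
          rw [div_le_iff₀ (by positivity), hn']
          have : (1 : ℝ) ≤ m ^ h := one_le_pow₀ hm0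
          have f3 : (0 : ℝ) ≤ 2 * m * K := by positivity
          calc (N : ℝ) ≤ 2 * m * K := hNK'
            _ ≤ (2 * m * K) * m ^ h := le_mul_of_one_le_right f3 this
            _ = _ := by ring
        have f2 : (n : ℝ) ^ (-β) ≤ ((N : ℝ) / (2 * m)) ^ (-β) :=
          Real.rpow_le_rpow_of_nonpos (by positivity) f1 (by linarith)
        refine f2.trans ?_
        rw [Real.div_rpow hN0.le (by positivity), Real.rpow_neg (by positivity : (0 : ℝ) ≤ 2 * m),
          div_inv_eq_mul, mul_comm]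
        apply mul_le_mul_of_nonneg_right _ (by positivity)
        calc (2 * m : ℝ) ^ β ≤ (2 * m : ℝ) ^ (1 : ℝ) :=
              Real.rpow_le_rpow_of_exponent_le (by linarith) hβ1
          _ = 2 * m := Real.rpow_one _
      calc (m : ℝ) ^ h * (n : ℝ) ^ (-β) ≤ m ^ h * (2 * m * (N : ℝ) ^ (-β)) :=
            mul_le_mul_of_nonneg_left e3 (by positivity)
        _ = _ := by ring
    have h5 : (r : ℝ) * (n : ℝ) ^ rr k * 2 ^ (N ^ h) / K ≤
        (m + 2 * m * m ^ h) * (r * (N : ℝ) ^ (-β)) * 2 ^ (N ^ h) := by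
      have e1 : (r : ℝ) * (n : ℝ) ^ rr k * 2 ^ (N ^ h) / K =
          r * ((n : ℝ) ^ rr k / K) * 2 ^ (N ^ h) := by ring
      rw [e1]
      apply mul_le_mul_of_nonneg_right _ (by positivity)
      have e2 : (r : ℝ) * ((n : ℝ) ^ rr k / K) ≤ r * (2 * m * m ^ h * (N : ℝ) ^ (-β)) :=
        mul_le_mul_of_nonneg_left h4 (by linarith)
      have e3 : (0 : ℝ) ≤ m * (r * (N : ℝ) ^ (-β)) := by positivity
      calc (r : ℝ) * ((n : ℝ) ^ rr k / K) ≤ r * (2 * m * m ^ h * (N : ℝ) ^ (-β)) := e2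
        _ ≤ m * (r * (N : ℝ) ^ (-β)) + r * (2 * m * m ^ h * (N : ℝ) ^ (-β)) := by linarith
        _ = _ := by ring
    linarith
  · have h1 : ((S ∩ F).card : ℝ) ≤ 2 ^ (N ^ h) := by
      have := card_le_univ (S ∩ F)
      rw [Fintype.card_finset, card_pts] at this
      exact_mod_cast this
    have h2 : (1 : ℝ) ≤ (m + 2 * m * m ^ h) * (r * (N : ℝ) ^ (-β)) := by
      have e1 : (N : ℝ) ≤ m := by exact_mod_cast hnm.le
      have e2 : (N : ℝ) ^ (-(1 : ℝ)) ≤ (N : ℝ) ^ (-β) :=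
        Real.rpow_le_rpow_of_exponent_le hNr (by linarith)
      rw [Real.rpow_neg hN0.le, Real.rpow_one] at e2
      have e3 : (1 : ℝ) ≤ m * (N : ℝ)⁻¹ := by
        rw [← div_eq_mul_inv, le_div_iff₀ hN0]
        linarith
      have e4 : (1 : ℝ) ≤ m * (N : ℝ) ^ (-β) :=
        e3.trans (mul_le_mul_of_nonneg_left e2 (by linarith))
      have e5 : (0 : ℝ) ≤ m * (N : ℝ) ^ (-β) := by positivity
      have e6 : (1 : ℝ) ≤ m * (r * (N : ℝ) ^ (-β)) := by
        calc (1 : ℝ) ≤ m * (N : ℝ) ^ (-β) := e4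
          _ ≤ r * (m * (N : ℝ) ^ (-β)) := le_mul_of_one_le_left e5 hr0
          _ = _ := by ring
      have e7 : (0 : ℝ) ≤ 2 * m * m ^ h * (r * (N : ℝ) ^ (-β)) := by positivity
      calc (1 : ℝ) ≤ m * (r * (N : ℝ) ^ (-β)) := e6
        _ ≤ m * (r * (N : ℝ) ^ (-β)) + 2 * m * m ^ h * (r * (N : ℝ) ^ (-β)) := by linarith
        _ = _ := by ring
    have h3 := mul_le_mul_of_nonneg_right h2 (by positivity : (0 : ℝ) ≤ 2 ^ (N ^ h))
    linarith

end main

end Pool.Agent.H284.HJ
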